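import Pool.Agent.Q40.MI.Limit

/-! # The concrete family of matrices -/

namespace Pool.Agent.Q40.MI

open Matrix

/-- The indices as natural numbers. -/
def nuf : Fin 1000 ⊕ Bool → ℕ := Sum.elim (fun l => l.val) (fun b => if b then 1001 else 1000)

lemma nuf_le (l : Fin 1000 ⊕ Bool) : nuf l ≤ 1001 := by
  rcases l with l | b
  · have := l.2; simp only [nuf, Sum.elim_inl]; omega
  · cases b <;> simp [nuf]

lemma nuf_inj : Function.Injective nuf := by
  rintro (l | b) (l' | b') h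
  · simp only [nuf, Sum.elim_inl] at h; rw [Fin.ext h]
  · exfalso
    have := l.2
    cases b' <;> simp [nuf] at h <;> omega
  · exfalso
    have := l'.2
    cases b <;> simp [nuf] at h <;> omega
  · cases b <;> cases b' <;> simp [nuf] at h <;> rfl

variable (P : Par (Fin 1000 ⊕ Bool))

lemma zd_of (hν : P.ν = nuf) (ha : ∀ l, P.a l ≤ 1 / 2) (hc : ∀ l, P.c l ≤ 1 / 10) : ZD P := by
  have ρ0 := P.ρ_pos
  have ρ1 := P.ρ_lt
  have ρ2 := P.ρ_ge
  have hqt : ∀ u v : List (Fin 1000), qt (Mb P) u v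
      = (W P.M (u.map Sum.inl))⁻¹ * W P.M (v.map Sum.inl) := by
    intro u v; unfold qt; rw [W_Mb, W_Mb]
  have h00 : P.a (Sum.inl 0) = 0 := by simp [Par.a, hν, nuf]
  have h01 : P.c (Sum.inl 0) = 0 := by simp [Par.c, hν, nuf]
  have hc1 : P.c (Sum.inl 1) ≠ 0 := by
    have : P.c (Sum.inl 1) = 1 / P.Q := by simp [Par.c, hν, nuf]
    rw [this]
    exact (one_div_pos.mpr P.QR_pos).ne'
  refine zariski_dense (Mb P) (ρ := P.ρ) (a := P.a (Sum.inl 1)) (c := P.c (Sum.inl 1)) ρ0 (by linarith)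
    hc1 (l₀ := 0) (l₁ := 1) ?_ rfl (det_Mb P) ?_ ?_ ?_
  · show P.M (Sum.inl 0) = _
    simp [Par.M, h00, h01]
  · intro ε hε
    have g1 : ∀ l i j, 0 ≤ Mb P l i j := by
      intro l i j
      have h1 := P.a_nonneg (Sum.inl l)
      have h2 := P.c_nonneg (Sum.inl l)
      have h3 := mul_nonneg h1 h2
      fin_cases i <;> fin_cases j <;> simp [Mb, Par.M] <;> linarith
    have g2 : ∀ l i, Mb P l i 0 + Mb P l i 1 ≤ 11 / 10 := by
      intro l i
      have h1 := P.a_nonneg (Sum.inl l)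
      have h2 := P.c_nonneg (Sum.inl l)
      have h3 := ha (Sum.inl l)
      have h4 := hc (Sum.inl l)
      have h5 : P.a (Sum.inl l) * P.c (Sum.inl l) ≤ 1 / 2 * (1 / 10) := mul_le_mul h3 h4 h2 (by norm_num)
      fin_cases i <;> simp [Mb, Par.M] <;> linarith
    have g3 : ((11 / 10 : ℝ) ^ 2 / P.ρ) ^ 4 < Fintype.card (Fin 1000) := by
      rw [Fintype.card_fin]
      have h1 : ((11 / 10 : ℝ)) ^ 2 / P.ρ ≤ 484 / 100 := by
        rw [div_le_iff₀ ρ0]; nlinarith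
      have h2 : 0 ≤ ((11 / 10 : ℝ)) ^ 2 / P.ρ := by positivity
      calc (((11 / 10 : ℝ)) ^ 2 / P.ρ) ^ 4 ≤ (484 / 100) ^ 4 := pow_le_pow_left₀ h2 h1 4
        _ < _ := by norm_num
    obtain ⟨u, v, hl, hne, h⟩ := pigeon (Mb P) (κ := 11 / 10) ρ0 (by linarith) g1 (by norm_num) g2
      (det_Mb P) g3 hε
    exact ⟨u, v, hl, hne, h⟩
  · intro u v hl hne
    rw [hqt]
    exact P.entry_ne' _ _ (by simpa using hl) (fun h => hne (List.map_injective_iff.mpr
      Sum.inl_injective h))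
  · intro u v hl hne
    rw [hqt]
    exact P.trace_ne' _ _ (by simpa using hl) (fun h => hne (List.map_injective_iff.mpr
      Sum.inl_injective h))

theorem exists_cfg {ε : ℝ} (hε : 0 < ε) : ∃ P : Par (Fin 1000 ⊕ Bool), P.ν = nuf ∧ ZD P ∧
    (∀ l, P.a l ≤ 1 / 2) ∧ (∀ l, P.c l * (10 * (1 + 2 * ε)) ≤ 1) := by
  set Q := ⌈1001 * (10 * (1 + 2 * ε))⌉₊ + 1 with hQ
  obtain ⟨p, hp, hpp⟩ := Nat.exists_infinite_primes (1001 * 1001 + Q * 2004 + 1)
  let P : Par (Fin 1000 ⊕ Bool) :=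
    { p := p, q := 2004, Q := Q, ν := nuf, hp := hpp, hq := by norm_num, hQ := Nat.succ_pos _
      inj := nuf_inj
      bd := fun l m => by
        have h1 := nuf_le l
        have h2 := nuf_le m
        have h3 := Nat.mul_le_mul h1 h2
        omega }
  have hQr : 1001 * (10 * (1 + 2 * ε)) ≤ (Q : ℝ) := by
    have h1 := Nat.le_ceil (1001 * (10 * (1 + 2 * ε)))
    rw [hQ]; push_cast; linarith
  have hQpos : (0 : ℝ) < Q := by rw [hQ]; positivity
  have ha : ∀ l, P.a l ≤ 1 / 2 := by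
    intro l
    show (nuf l : ℝ) / ((2004 : ℕ) : ℝ) ≤ 1 / 2
    have : (nuf l : ℝ) ≤ 1001 := by exact_mod_cast nuf_le l
    rw [div_le_div_iff₀ (by norm_num) (by norm_num)]
    push_cast
    linarith
  have hc : ∀ l, P.c l * (10 * (1 + 2 * ε)) ≤ 1 := by
    intro l
    show (nuf l : ℝ) / (Q : ℝ) * (10 * (1 + 2 * ε)) ≤ 1
    have : (nuf l : ℝ) ≤ 1001 := by exact_mod_cast nuf_le l
    rw [div_mul_eq_mul_div, div_le_one hQpos]
    refine le_trans ?_ hQr
    exact mul_le_mul_of_nonneg_right this (by positivity)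
  refine ⟨P, rfl, zd_of P rfl ha fun l => ?_, ha, hc⟩
  have h1 := hc l
  have h2 := P.c_nonneg l
  have h3 : P.c l * 10 ≤ P.c l * (10 * (1 + 2 * ε)) := mul_le_mul_of_nonneg_left (by linarith) h2
  linarith

end Pool.Agent.Q40.MI
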