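import Pool.Agent.Q40.MI.Good

/-! # The counterexample -/

namespace Pool.Agent.Q40.MI

open Matrix Set

section comp
variable {ι : Type*}

lemma comp_append (f : ι → ℝ → ℝ) (u v : List ι) (x : ℝ) :
    comp f (u ++ v) x = comp f u (comp f v x) := by
  induction u with
  | nil => rfl
  | cons l u ih =>
    show f l (comp f (u ++ v) x) = f l (comp f u (comp f v x))
    rw [ih]

lemma comp_map {κ : Type*} (f : ι → ℝ → ℝ) (e : κ → ι) (w : List κ) :
    comp (fun i => f (e i)) w = comp f (w.map e) := by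
  induction w with
  | nil => rfl
  | cons l w ih =>
    show f (e l) ∘ comp (fun i => f (e i)) w = f (e l) ∘ comp f (w.map e)
    rw [ih]

variable {ε : ℝ} (A : ι → Matrix (Fin 2) (Fin 2) ℝ) (hA : ∀ l, Good ε (A l))
include hA

lemma ps_W (w : List ι) : Ps (W A w) := by
  induction w with
  | nil => simpa using Ps.one
  | cons l w ih => rw [W_cons]; exact (hA l).ps.mul ih

lemma con_W (hε : 0 < ε) (w : List ι) (hw : w ≠ []) : (W A w).det < (W A w) 1 1 ^ 2 := by
  induction w with
  | nil => exact absurd rfl hw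
  | cons l w ih =>
    rw [W_cons]
    refine (hA l).ps.con_mul (ps_W A hA w) ((hA l).con hε) ?_
    by_cases h : w = []
    · subst h; simp
    · exact (ih h).le

lemma comp_eq (w : List ι) {x : ℝ} (hx : x ∈ Icc (0 : ℝ) 1) :
    comp (fun l => mob (A l)) w x = mob (W A w) x ∧ comp (fun l => mob (A l)) w x ∈ Icc (0 : ℝ) 1 := by
  induction w with
  | nil =>
    refine ⟨?_, hx⟩
    show x = _
    simp [mob]
  | cons l w ih =>
    obtain ⟨h1, h2⟩ := ih
    have e : comp (fun l => mob (A l)) (l :: w) x = mob (A l) (comp (fun l => mob (A l)) w x) := rfl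
    refine ⟨?_, ?_⟩
    · rw [e, h1, W_cons, mob_mul _ _ _ ((ps_W A hA w).den hx.1).ne']
    · rw [e]; exact (hA l).ps.maps h2

lemma comp_contract (hε : 0 < ε) (w : List ι) {x y : ℝ} (hx : x ∈ Icc (0 : ℝ) 1)
    (hy : y ∈ Icc (0 : ℝ) 1) :
    |comp (fun l => mob (A l)) w x - comp (fun l => mob (A l)) w y| ≤ |x - y| := by
  induction w with
  | nil => exact le_rfl
  | cons l w ih =>
    show |mob (A l) (comp (fun l => mob (A l)) w x) - mob (A l) (comp (fun l => mob (A l)) w y)| ≤ _
    exact ((hA l).ps.contract ((hA l).con hε) (comp_eq A hA w hx).2 (comp_eq A hA w hy).2).trans ih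

/-- Without common eigenvectors for words of the same length: not sub-conjugated. -/
lemma not_sub (hε : 0 < ε) (hcomm : ∀ i j : List ι, i.length = j.length → i ≠ j →
    (W A i * W A j - W A j * W A i).det ≠ 0) : ¬ SubConjugated (fun l => mob (A l)) := by
  rintro ⟨u, v, hne, hl, g, l₁, l₂, t₁, t₂, hg, hinj, h1, h2, h3, h4⟩
  have hu : u ≠ [] := by
    rintro rfl
    exact hne (List.length_eq_zero_iff.mp (by simpa using hl.symm)).symm
  have hv : v ≠ [] := by
    rintro rfl
    exact hne (List.length_eq_zero_iff.mp (by simpa using hl))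
  have a1 : |l₁| < 1 := abs_lt.mpr ⟨h1.1.1, h1.1.2⟩
  have a2 : |l₂| < 1 := abs_lt.mpr ⟨h2.1.1, h2.1.2⟩
  refine no_conj (W A u) (W A v) (ps_W A hA u) (ps_W A hA v) (con_W A hA hε u hu)
    (con_W A hA hε v hv) (hcomm u v hl hne) g hg hinj (t1 := t₁) (t2 := t₂) a1 h1.2 a2 h2.2 ?_ ?_
  · intro x hx
    rw [← (comp_eq A hA u hx).1]; exact h3 x hx
  · intro x hx
    rw [← (comp_eq A hA v hx).1]; exact h4 x hx

/-- Two words of the same length with the same composition are equal. -/
lemma no_overlap_aux (hε : 0 < ε) (hcomm : ∀ i j : List ι, i.length = j.length → i ≠ j →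
    (W A i * W A j - W A j * W A i).det ≠ 0) (u v : List ι) (hl : u.length = v.length) (hne : u ≠ v)
    (h : EqOn (comp (fun l => mob (A l)) u) (comp (fun l => mob (A l)) v) (Icc 0 1)) : False := by
  have hu : u ≠ [] := by
    rintro rfl
    exact hne (List.length_eq_zero_iff.mp (by simpa using hl.symm)).symm
  apply hcomm u v hl hne
  obtain ⟨p, m, p0, p1, mp, hm, hpm, he⟩ := (ps_W A hA u).fix (con_W A hA hε u hu)
  have hp : p ∈ Icc (0 : ℝ) 1 := ⟨p0, p1⟩
  have dA := (ps_W A hA u).den p0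
  have dB := (ps_W A hA v).den p0
  have h1 : mob (W A u) p = p := by
    have := mob_sub_self (W A u) hm hpm dA.ne'
    rw [sub_self, zero_mul, zero_div] at this
    linarith
  have h2 : mob (W A v) p = p := by
    rw [← (comp_eq A hA v hp).1, ← h hp, (comp_eq A hA u hp).1, h1]
  generalize W A u = X at *
  generalize W A v = Y at *
  unfold mob at h1 h2
  rw [div_eq_iff dA.ne'] at h1
  rw [div_eq_iff dB.ne'] at h2
  have a01 : X 0 1 = p * (X 1 0 * p + X 1 1) - X 0 0 * p := by linarith
  have b01 : Y 0 1 = p * (Y 1 0 * p + Y 1 1) - Y 0 0 * p := by linarith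
  rw [Matrix.det_fin_two]
  simp only [Matrix.sub_apply, Matrix.mul_apply, Fin.sum_univ_two]
  rw [a01, b01]
  ring

lemma no_overlap [Nontrivial ι] (hε : 0 < ε) (hcomm : ∀ i j : List ι, i.length = j.length → i ≠ j →
    (W A i * W A j - W A j * W A i).det ≠ 0) : ¬ ExactOverlap (fun l => mob (A l)) := by
  have key : ∀ u v : List ι, u.length < v.length →
      ¬ EqOn (comp (fun l => mob (A l)) u) (comp (fun l => mob (A l)) v) (Icc 0 1) := by
    intro u v hl h
    obtain ⟨l, hlne⟩ := exists_ne (v[u.length])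
    refine no_overlap_aux A hA hε hcomm (u ++ [l] ++ v) (v ++ [l] ++ u) (by simp; ring) ?_ ?_
    · intro h2
      have h3 := congrArg (fun w => w[u.length]?) h2
      simp only [List.append_assoc] at h3
      rw [List.getElem?_append_right le_rfl, List.getElem?_append_left hl] at h3
      simp only [Nat.sub_self, List.singleton_append, List.getElem?_cons_zero] at h3
      rw [List.getElem?_eq_getElem hl] at h3
      exact hlne (Option.some.inj h3)
    · intro x hx
      simp only [comp_append]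
      have hv := (comp_eq A hA v hx).2
      have hlv : comp (fun l => mob (A l)) [l] (comp (fun l => mob (A l)) v x) ∈ Icc (0 : ℝ) 1 :=
        (comp_eq A hA [l] hv).2
      rw [h hlv, ← h hx]
  rintro ⟨u, v, hne, h⟩
  rcases lt_trichotomy u.length v.length with hl | hl | hl
  · exact key u v hl h
  · exact no_overlap_aux A hA hε hcomm u v hl hne h
  · exact key v u hl h.symm

end comp

section sup

/-- Closeness of two words implied by closeness of one letter to an exact relation. -/
lemma word_close {ε : ℝ} (hε : 0 < ε) (P : Par (Fin 1000 ⊕ Bool))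
    (F : Bool → Matrix (Fin 2) (Fin 2) ℝ) (hA : ∀ l, Good ε (L (Mb P) F l)) (s : Bool)
    (a b : List (Fin 1000)) (hg : Good ε (qt (Mb P) a b)) {δ : ℝ} (hd : Cl (F s - qt (Mb P) a b) δ)
    (w : List (Fin 1000 ⊕ Bool)) {x : ℝ} (hx : x ∈ Icc (0 : ℝ) 1) :
    |comp (fun l => mob (L (Mb P) F l)) (a.map Sum.inl ++ [Sum.inr s] ++ w) x
      - comp (fun l => mob (L (Mb P) F l)) (b.map Sum.inl ++ w) x| ≤ 64 * δ := by
  rw [comp_append, comp_append, comp_append]
  set y := comp (fun l => mob (L (Mb P) F l)) w x with hy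
  have hyI : y ∈ Icc (0 : ℝ) 1 := (comp_eq _ hA w hx).2
  have h1 : comp (fun l => mob (L (Mb P) F l)) [Sum.inr s] y = mob (F s) y := rfl
  have h2 : comp (fun l => mob (L (Mb P) F l)) (b.map Sum.inl) y
      = comp (fun l => mob (L (Mb P) F l)) (a.map Sum.inl) (mob (qt (Mb P) a b) y) := by
    have hm : mob (qt (Mb P) a b) y ∈ Icc (0 : ℝ) 1 := hg.ps.maps hyI
    rw [(comp_eq _ hA _ hyI).1, (comp_eq _ hA _ hm).1, W_comp, W_comp]
    have e : (fun l => L (Mb P) F (Sum.inl l)) = Mb P := rfl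
    rw [e, ← mob_mul _ _ _ (hg.ps.den hyI.1).ne']
    congr 1
    unfold qt
    rw [← Matrix.mul_assoc, Matrix.mul_nonsing_inv _ (isUnit_Mb P a), Matrix.one_mul]
  rw [h1, h2]
  have hs : Good ε (F s) := hA (Sum.inr s)
  exact (comp_contract _ hA hε _ (hs.ps.maps hyI) (hg.ps.maps hyI)).trans (hs.near hg hd hyI)

end sup

/-- The counterexample, indexed by `Fin 1000 ⊕ Bool`. -/
theorem exists_family {ε : ℝ} (hε : 0 < ε) : ∃ A : Fin 1000 ⊕ Bool → Matrix (Fin 2) (Fin 2) ℝ,
    (∀ l, Good ε (A l)) ∧ ¬ SubConjugated (fun l => mob (A l)) ∧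
    ¬ ExactOverlap (fun l => mob (A l)) ∧
    ∀ c : ℝ, 0 < c → ∃ n₀ : ℕ, ∀ n ≥ n₀, ∃ u v : List (Fin 1000 ⊕ Bool), u.length = n ∧ v.length = n ∧
      u ≠ v ∧ ∃ B < c ^ n, ∀ x ∈ Icc (0 : ℝ) 1,
        |comp (fun l => mob (A l)) u x - comp (fun l => mob (A l)) v x| ≤ B := by
  obtain ⟨P, hν, hZ, ha, hc⟩ := exists_cfg hε
  have ρ0 := P.ρ_pos
  have ρ1 := P.ρ_lt
  -- base letters are good
  have hgoodP : ∀ l, Good ε (P.M l) := by
    intro l
    have a0 := P.a_nonneg l
    have c0 := P.c_nonneg l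
    have a1 := ha l
    have c1 := hc l
    have c2 : P.c l * ε ≤ 1 / 20 := by
      have := mul_nonneg c0 hε.le
      linarith
    have c3 : P.c l ≤ 1 / 10 := by
      have := mul_nonneg c0 hε.le
      linarith
    have ac : P.a l * P.c l ≤ 1 / 2 * (1 / 10) := mul_le_mul a1 c3 c0 (by norm_num)
    have ac0 := mul_nonneg a0 c0
    constructor <;> simp only [Par.M, Matrix.of_apply, Matrix.cons_val', Matrix.cons_val_zero,
      Matrix.cons_val_one, Matrix.cons_val_fin_one, Fin.isValue]
    · exact a0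
    · exact c0
    · linarith
    · linarith
    · have : (9 / 10 : ℝ) ≤ 1 - 2 * ε * P.c l := by linarith
      have h2 : (9 / 10 : ℝ) ^ 2 ≤ (1 - 2 * ε * P.c l) ^ 2 := pow_le_pow_left₀ (by norm_num) this 2
      refine lt_of_lt_of_le ?_ h2
      have : (P.ρ + P.a l * P.c l) * 1 - P.a l * P.c l = P.ρ := by ring
      rw [this]; norm_num; linarith
    · linarith
    · norm_num
    · linarith
    · linarith
    · linarith
    · norm_num
  have hposa : ∀ l : Fin 1000, l ≠ 0 → 0 < P.a (Sum.inl l) ∧ 0 < P.c (Sum.inl l) := by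
    intro l hl
    have h1 : 0 < P.ν (Sum.inl l) := by
      rw [hν]
      simp only [nuf, Sum.elim_inl]
      exact Nat.pos_of_ne_zero fun h => hl (Fin.ext h)
    have h2 : (0 : ℝ) < P.ν (Sum.inl l) := by exact_mod_cast h1
    exact ⟨div_pos h2 P.qR_pos, div_pos h2 P.QR_pos⟩
  have hgoodO : ∀ l : Fin 1000, l ≠ 0 → GoodO ε (P.M (Sum.inl l)) := by
    intro l hl
    obtain ⟨a0, c0⟩ := hposa l hl
    have hg := hgoodP (Sum.inl l)
    have a1 := ha (Sum.inl l)
    have c1 := hc (Sum.inl l)
    have c3 : P.c (Sum.inl l) ≤ 1 / 10 := by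
      have := mul_nonneg c0.le hε.le
      linarith
    have ac : P.a (Sum.inl l) * P.c (Sum.inl l) ≤ 1 / 2 * (1 / 10) := mul_le_mul a1 c3 c0.le (by norm_num)
    have g1 := hg.dt
    have g2 := hg.big
    have g3 := hg.lin
    constructor <;> (try assumption) <;>
      simp only [Par.M, Matrix.of_apply, Matrix.cons_val', Matrix.cons_val_zero,
      Matrix.cons_val_one, Matrix.cons_val_fin_one, Fin.isValue] <;> linarith
  -- initial state
  have hinit : ∀ s, pr P [] [1] [] [2] s = P.M (Sum.inl (if s then 2 else 1)) := by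
    intro s
    cases s <;> simp [pr, qt, Mb]
  have hin : pr P [] [1] [] [2] ∈ {F : Bool → Matrix (Fin 2) (Fin 2) ℝ | ∀ s, GoodO ε (F s)} := by
    intro s
    rw [hinit]
    cases s
    · exact hgoodO 1 (by decide)
    · exact hgoodO 2 (by decide)
  obtain ⟨r₀, hr₀, hbox⟩ := box_open (isOpen_goodO ε) hin
  set φ : ℕ → ℕ → ℝ := fun k n => (1 / ((k : ℝ) + 2)) ^ n / 200 with hφ
  obtain ⟨F, a, b, c, d, h0, hcomm, hb, hd, hmono, hcen, h3, h4⟩ :=
    limit hZ [] [1] [] [2] rfl rfl hr₀ φ (fun k n => by rw [hφ]; positivity)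
  have hFgood : ∀ s, Good ε (F s) := fun s => (hbox F h0 s).good
  have hcgood : ∀ k s, Good ε (pr P (a k) (b k) (c k) (d k) s) := fun k s => (hbox _ (hcen k) s).good
  have hA : ∀ l, Good ε (L (Mb P) F l) := by
    rintro (l | s)
    · exact hgoodP (Sum.inl l)
    · exact hFgood s
  have hnt : Nontrivial (Fin 1000 ⊕ Bool) := ⟨Sum.inl 0, Sum.inl 1, by simp⟩
  refine ⟨L (Mb P) F, hA, not_sub _ hA hε hcomm, no_overlap _ hA hε hcomm, ?_⟩
  intro t ht
  obtain ⟨K, hK⟩ : ∃ K : ℕ, 1 / ((K : ℝ) + 2) ≤ t := by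
    obtain ⟨K, hK⟩ := exists_nat_ge (1 / t)
    refine ⟨K, ?_⟩
    rw [div_le_iff₀ (by positivity)]
    rw [div_le_iff₀ ht] at hK
    linarith
  have hsm : StrictMono fun k => (a k).length := strictMono_nat_of_lt_succ hmono
  refine ⟨(a K).length + 1, fun n hn => ?_⟩
  -- find `k ≥ K` with `|a k| + 1 ≤ n < |a (k+1)| + 1`
  obtain ⟨k, hkK, hk1, hk2⟩ : ∃ k, K ≤ k ∧ (a k).length + 1 ≤ n ∧ n < (a (k + 1)).length + 1 := by
    have hex : ∃ m, n < (a (K + m + 1)).length + 1 := by
      refine ⟨n, ?_⟩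
      have := hsm.id_le (K + n + 1)
      simp only [id] at this
      omega
    classical
    set m := Nat.find hex
    have hm : n < (a (K + m + 1)).length + 1 := Nat.find_spec hex
    refine ⟨K + m, by omega, ?_, hm⟩
    rcases Nat.eq_zero_or_pos m with h | h
    · rw [h]; exact hn
    · have := Nat.find_min hex (m := m - 1) (by omega)
      push Not at this
      have e : K + (m - 1) + 1 = K + m := by omega
      rwa [e] at this
  have hbase : 1 / ((k : ℝ) + 2) ≤ t := by
    refine le_trans ?_ hK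
    apply one_div_le_one_div_of_le (by positivity)
    have : (K : ℝ) ≤ k := by exact_mod_cast hkK
    linarith
  have hbpos : 0 < 1 / ((k : ℝ) + 2) := by positivity
  have hb1 : 1 / ((k : ℝ) + 2) ≤ 1 := by
    rw [div_le_one (by positivity)]
    have : (0 : ℝ) ≤ k := Nat.cast_nonneg k
    linarith
  have hpow : (1 / ((k : ℝ) + 2)) ^ n ≤ t ^ n := pow_le_pow_left₀ hbpos.le hbase n
  have hppos : 0 < (1 / ((k : ℝ) + 2)) ^ n := pow_pos hbpos n
  have hfin : 64 * ((1 / ((k : ℝ) + 2)) ^ n / 200) < t ^ n := by linarith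
  have hφm : ∀ m, n ≤ m → φ k m ≤ (1 / ((k : ℝ) + 2)) ^ n / 200 := by
    intro m hm
    rw [hφ]
    apply div_le_div_of_nonneg_right _ (by norm_num)
    exact pow_le_pow_of_le_one hbpos.le hb1 hm
  by_cases hcase : n ≤ (c (k + 1)).length + 1
  · refine ⟨(a k).map Sum.inl ++ [Sum.inr false] ++ List.replicate (n - ((a k).length + 1)) (Sum.inl 0),
      (b k).map Sum.inl ++ List.replicate (n - ((a k).length + 1)) (Sum.inl 0), ?_, ?_, ?_, _, hfin, ?_⟩
    · simp; omega
    · simp [hb]; omega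
    · intro h
      have h5 : (Sum.inr false : Fin 1000 ⊕ Bool) ∈ (b k).map Sum.inl ++
        List.replicate (n - ((a k).length + 1)) (Sum.inl 0) := by
        rw [← h]; simp
      simp at h5
    · intro x hx
      have hg : Good ε (qt (Mb P) (a k) (b k)) := by
        have := hcgood k false
        simpa [pr] using this
      exact word_close hε P F hA false (a k) (b k) hg ((h3 k).mono (hφm _ hcase)) _ hx
  · push Not at hcase
    refine ⟨(c (k + 1)).map Sum.inl ++ [Sum.inr true] ++
        List.replicate (n - ((c (k + 1)).length + 1)) (Sum.inl 0),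
      (d (k + 1)).map Sum.inl ++ List.replicate (n - ((c (k + 1)).length + 1)) (Sum.inl 0),
      ?_, ?_, ?_, _, hfin, ?_⟩
    · simp; omega
    · simp [hd]; omega
    · intro h
      have h5 : (Sum.inr true : Fin 1000 ⊕ Bool) ∈ (d (k + 1)).map Sum.inl ++
        List.replicate (n - ((c (k + 1)).length + 1)) (Sum.inl 0) := by
        rw [← h]; simp
      simp at h5
    · intro x hx
      have hg : Good ε (qt (Mb P) (c (k + 1)) (d (k + 1))) := by
        have := hcgood (k + 1) true
        simpa [pr] using this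
      exact word_close hε P F hA true (c (k + 1)) (d (k + 1)) hg ((h4 k).mono (hφm _ hk2.le)) _ hx

end Pool.Agent.Q40.MI
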