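import Pool.Agent.Q40.MI.NoConj

/-!
# Analytic iterated function systems on the line: definitions
-/

namespace Pool.Agent.Q40.MI

open Set

/-- The open `δ`-neighbourhood `B_δ` of `[0,1]` in the complex plane. -/
def nbhd (δ : ℝ) : Set ℂ := Metric.thickening δ ((fun x : ℝ => (x : ℂ)) '' Icc 0 1)

/-- An analytic IFS (for a given `ε`): maps `f i : ℝ → ℝ`, with complex extensions `F i`. -/
structure AnalyticIFS (ε : ℝ) (m : ℕ) where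
  /-- the maps -/
  f : Fin m → ℝ → ℝ
  /-- their complex extensions -/
  F : Fin m → ℂ → ℂ
  two_le : 2 ≤ m
  ext : ∀ i (x : ℝ), F i x = f i x
  analytic : ∀ i, AnalyticOnNhd ℂ (F i) (nbhd (2 * ε))
  maps_I : ∀ i, ∀ x ∈ Icc (0 : ℝ) 1, f i x ∈ Icc (0 : ℝ) 1
  maps_B : ∀ i, ∀ z ∈ closure (nbhd ε), F i z ∈ nbhd ε
  deriv_pos : ∀ i, ∀ z ∈ closure (nbhd ε), 0 < ‖deriv (F i) z‖
  deriv_lt : ∀ i, ∀ z ∈ closure (nbhd ε), ‖deriv (F i) z‖ < 1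

/-- The composition `f_{i₁} ∘ ⋯ ∘ f_{iₙ}` along a word. -/
def comp {ι : Type*} (f : ι → ℝ → ℝ) : List ι → ℝ → ℝ
  | [] => id
  | i :: w => f i ∘ comp f w

/-- There is an exact overlap: two different finite words have the same composition (on `[0,1]`). -/
def ExactOverlap {ι : Type*} (f : ι → ℝ → ℝ) : Prop :=
  ∃ u v : List ι, u ≠ v ∧ EqOn (comp f u) (comp f v) (Icc 0 1)

/-- The exponential separation condition. -/
def ESC {ι : Type*} (f : ι → ℝ → ℝ) : Prop :=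
  ∃ c : ℝ, 0 < c ∧ ∃ᶠ n : ℕ in Filter.atTop, ∀ u v : List ι, u.length = n → v.length = n → u ≠ v →
    c ^ n ≤ ⨆ x : Icc (0 : ℝ) 1, |comp f u x - comp f v x|

/-- The IFS is sub-conjugated to a self-similar IFS. (The conjugacy `g` is only required to be
analytic and injective on `[0,1]`; `f_u = g⁻¹(λ₁ g + t₁)` on `[0,1]`.) -/
def SubConjugated {ι : Type*} (f : ι → ℝ → ℝ) : Prop :=
  ∃ u v : List ι, u ≠ v ∧ u.length = v.length ∧ ∃ (g : ℝ → ℝ) (l₁ l₂ t₁ t₂ : ℝ),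
    AnalyticOnNhd ℝ g (Icc 0 1) ∧ InjOn g (Icc 0 1) ∧ l₁ ∈ Ioo (-1 : ℝ) 1 \ {0} ∧
    l₂ ∈ Ioo (-1 : ℝ) 1 \ {0} ∧
    (∀ x ∈ Icc (0 : ℝ) 1, g (comp f u x) = l₁ * g x + t₁) ∧
    (∀ x ∈ Icc (0 : ℝ) 1, g (comp f v x) = l₂ * g x + t₂)

end Pool.Agent.Q40.MI
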