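import Pool.Agent.Q40.MI.Config
import Pool.Agent.Q40.MI.IFS

/-! # Möbius maps as members of an analytic IFS -/

namespace Pool.Agent.Q40.MI

open Matrix Set

/-- Conditions on a matrix such that its Möbius map may be used in an analytic IFS. -/
structure Good (ε : ℝ) (M : Matrix (Fin 2) (Fin 2) ℝ) : Prop where
  p01 : 0 ≤ M 0 1
  p10 : 0 ≤ M 1 0
  row : M 0 0 + M 0 1 ≤ M 1 0 + M 1 1
  dt : 0 < M 0 0 * M 1 1 - M 0 1 * M 1 0
  big : M 0 0 * M 1 1 - M 0 1 * M 1 0 < (M 1 1 - 2 * ε * M 1 0) ^ 2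
  lin : 2 * ε * M 1 0 < M 1 1
  lo : 1 / 2 ≤ M 1 1
  h00 : M 0 0 ≤ 2
  h01 : M 0 1 ≤ 2
  h10 : M 1 0 ≤ 2
  h11 : M 1 1 ≤ 2

/-- The open version. -/
structure GoodO (ε : ℝ) (M : Matrix (Fin 2) (Fin 2) ℝ) : Prop where
  p01 : 0 < M 0 1
  p10 : 0 < M 1 0
  row : M 0 0 + M 0 1 < M 1 0 + M 1 1
  dt : 0 < M 0 0 * M 1 1 - M 0 1 * M 1 0
  big : M 0 0 * M 1 1 - M 0 1 * M 1 0 < (M 1 1 - 2 * ε * M 1 0) ^ 2
  lin : 2 * ε * M 1 0 < M 1 1
  lo : 1 / 2 < M 1 1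
  h00 : M 0 0 < 2
  h01 : M 0 1 < 2
  h10 : M 1 0 < 2
  h11 : M 1 1 < 2

lemma GoodO.good {ε : ℝ} {M : Matrix (Fin 2) (Fin 2) ℝ} (h : GoodO ε M) : Good ε M :=
  ⟨h.p01.le, h.p10.le, h.row.le, h.dt, h.big, h.lin, h.lo.le, h.h00.le, h.h01.le, h.h10.le, h.h11.le⟩

lemma isOpen_goodO (ε : ℝ) : IsOpen {F : Bool → Matrix (Fin 2) (Fin 2) ℝ | ∀ s, GoodO ε (F s)} := by
  have h1 : ∀ s : Bool, IsOpen {F : Bool → Matrix (Fin 2) (Fin 2) ℝ | GoodO ε (F s)} := by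
    intro s
    have hc : ∀ i j, Continuous fun F : Bool → Matrix (Fin 2) (Fin 2) ℝ => F s i j := fun i j =>
      ((continuous_apply s).matrix_elem i j)
    have c00 := hc 0 0
    have c01 := hc 0 1
    have c10 := hc 1 0
    have c11 := hc 1 1
    have e : {F : Bool → Matrix (Fin 2) (Fin 2) ℝ | GoodO ε (F s)} =
      {F | 0 < F s 0 1} ∩ ({F | 0 < F s 1 0} ∩ ({F | F s 0 0 + F s 0 1 < F s 1 0 + F s 1 1} ∩
      ({F | 0 < F s 0 0 * F s 1 1 - F s 0 1 * F s 1 0} ∩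
      ({F | F s 0 0 * F s 1 1 - F s 0 1 * F s 1 0 < (F s 1 1 - 2 * ε * F s 1 0) ^ 2} ∩
      ({F | 2 * ε * F s 1 0 < F s 1 1} ∩ ({F | 1 / 2 < F s 1 1} ∩ ({F | F s 0 0 < 2} ∩
      ({F | F s 0 1 < 2} ∩ ({F | F s 1 0 < 2} ∩ {F | F s 1 1 < 2}))))))))) := by
      ext F
      constructor
      · rintro ⟨a, b, c, d, e, f, g, h, i, j, k⟩
        exact ⟨a, b, c, d, e, f, g, h, i, j, k⟩
      · rintro ⟨a, b, c, d, e, f, g, h, i, j, k⟩
        exact ⟨a, b, c, d, e, f, g, h, i, j, k⟩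
    rw [e]
    refine (isOpen_lt continuous_const c01).inter ((isOpen_lt continuous_const c10).inter
      ((isOpen_lt (c00.add c01) (c10.add c11)).inter ((isOpen_lt continuous_const
      ((c00.mul c11).sub (c01.mul c10))).inter ((isOpen_lt ((c00.mul c11).sub (c01.mul c10))
      ((c11.sub (continuous_const.mul c10)).pow 2)).inter ((isOpen_lt (continuous_const.mul c10) c11).inter
      ((isOpen_lt continuous_const c11).inter ((isOpen_lt c00 continuous_const).inter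
      ((isOpen_lt c01 continuous_const).inter ((isOpen_lt c10 continuous_const).inter
      (isOpen_lt c11 continuous_const))))))))))
  have : {F : Bool → Matrix (Fin 2) (Fin 2) ℝ | ∀ s, GoodO ε (F s)}
      = {F | GoodO ε (F false)} ∩ {F | GoodO ε (F true)} := by
    ext F
    exact ⟨fun h => ⟨h false, h true⟩, fun h s => by cases s; exacts [h.1, h.2]⟩
  rw [this]
  exact (h1 false).inter (h1 true)

variable {ε : ℝ}

lemma Good.ps {M : Matrix (Fin 2) (Fin 2) ℝ} (h : Good ε M) : Ps M := by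
  have h11 : 0 < M 1 1 := lt_of_lt_of_le (by norm_num) h.lo
  refine ⟨?_, h.p01, h.p10, h11, by rw [Matrix.det_fin_two]; exact h.dt, h.row⟩
  have h1 : 0 < M 0 0 * M 1 1 := by
    have := mul_nonneg h.p01 h.p10
    linarith [h.dt]
  exact (pos_iff_pos_of_mul_pos h1).mpr h11

lemma Good.con (hε : 0 < ε) {M : Matrix (Fin 2) (Fin 2) ℝ} (h : Good ε M) : M.det < M 1 1 ^ 2 := by
  rw [Matrix.det_fin_two]
  have h1 : 0 ≤ 2 * ε * M 1 0 := mul_nonneg (by linarith) h.p10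
  have h2 := h.lin
  refine h.big.trans_le ?_
  exact pow_le_pow_left₀ (by linarith) (by linarith) 2

/-- The complex Möbius map. -/
noncomputable def cmob (M : Matrix (Fin 2) (Fin 2) ℝ) (z : ℂ) : ℂ :=
  ((M 0 0 : ℂ) * z + (M 0 1 : ℂ)) / ((M 1 0 : ℂ) * z + (M 1 1 : ℂ))

lemma cmob_ofReal (M : Matrix (Fin 2) (Fin 2) ℝ) (x : ℝ) : cmob M x = mob M x := by
  unfold cmob mob; push_cast; rfl

lemma nbhd_re {δ : ℝ} {z : ℂ} (hz : z ∈ nbhd δ) : -δ < z.re := by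
  unfold nbhd at hz
  rw [Metric.mem_thickening_iff] at hz
  obtain ⟨_, ⟨x, hx, rfl⟩, hd⟩ := hz
  rw [dist_eq_norm] at hd
  have h1 := Complex.abs_re_le_norm (z - (x : ℂ))
  rw [Complex.sub_re, Complex.ofReal_re] at h1
  have h2 := (abs_lt.mp (lt_of_le_of_lt h1 hd)).1
  linarith [hx.1]

lemma closure_nbhd {δ : ℝ} (hδ : 0 < δ) {z : ℂ} (hz : z ∈ closure (nbhd δ)) :
    ∃ x ∈ Icc (0 : ℝ) 1, ‖z - (x : ℂ)‖ ≤ δ := by
  have h1 := Metric.closure_thickening_subset_cthickening δ ((fun x : ℝ => (x : ℂ)) '' Icc 0 1) hz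
  have hc : IsCompact ((fun x : ℝ => (x : ℂ)) '' Icc (0 : ℝ) 1) :=
    isCompact_Icc.image Complex.continuous_ofReal
  rw [hc.cthickening_eq_biUnion_closedBall hδ.le] at h1
  simp only [mem_iUnion] at h1
  obtain ⟨_, ⟨x, hx, rfl⟩, hd⟩ := h1
  exact ⟨x, hx, by rwa [Metric.mem_closedBall, dist_eq_norm] at hd⟩

lemma den_re (M : Matrix (Fin 2) (Fin 2) ℝ) (z : ℂ) :
    ((M 1 0 : ℂ) * z + (M 1 1 : ℂ)).re = M 1 0 * z.re + M 1 1 := by simp

lemma Good.den_le (_ : 0 < ε) {M : Matrix (Fin 2) (Fin 2) ℝ} (h : Good ε M) {z : ℂ}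
    (hz : -(2 * ε) ≤ z.re) : M 1 1 - 2 * ε * M 1 0 ≤ ‖(M 1 0 : ℂ) * z + (M 1 1 : ℂ)‖ := by
  refine le_trans ?_ (Complex.re_le_norm _)
  rw [den_re]
  have := mul_le_mul_of_nonneg_left hz h.p10
  linarith

lemma Good.den_ne (hε : 0 < ε) {M : Matrix (Fin 2) (Fin 2) ℝ} (h : Good ε M) {z : ℂ}
    (hz : -(2 * ε) ≤ z.re) : (M 1 0 : ℂ) * z + (M 1 1 : ℂ) ≠ 0 := by
  have h1 := h.den_le hε hz
  have h2 := h.lin
  intro h3
  rw [h3, norm_zero] at h1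
  linarith

lemma Good.analytic (hε : 0 < ε) {M : Matrix (Fin 2) (Fin 2) ℝ} (h : Good ε M) :
    AnalyticOnNhd ℂ (cmob M) (nbhd (2 * ε)) := by
  intro z hz
  have h1 := nbhd_re hz
  have h2 := h.den_ne hε h1.le
  unfold cmob
  exact ((analyticAt_const.mul analyticAt_id).add analyticAt_const).div
    ((analyticAt_const.mul analyticAt_id).add analyticAt_const) h2

lemma cmob_deriv (M : Matrix (Fin 2) (Fin 2) ℝ) {z : ℂ} (hz : (M 1 0 : ℂ) * z + (M 1 1 : ℂ) ≠ 0) :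
    deriv (cmob M) z = ((M 0 0 * M 1 1 - M 0 1 * M 1 0 : ℝ) : ℂ) / ((M 1 0 : ℂ) * z + (M 1 1 : ℂ)) ^ 2 := by
  have h1 : HasDerivAt (fun z : ℂ => (M 0 0 : ℂ) * z + (M 0 1 : ℂ)) (M 0 0 : ℂ) z := by
    simpa using ((hasDerivAt_id z).const_mul (M 0 0 : ℂ)).add_const (M 0 1 : ℂ)
  have h2 : HasDerivAt (fun z : ℂ => (M 1 0 : ℂ) * z + (M 1 1 : ℂ)) (M 1 0 : ℂ) z := by
    simpa using ((hasDerivAt_id z).const_mul (M 1 0 : ℂ)).add_const (M 1 1 : ℂ)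
  have h3 := (h1.div h2 hz).deriv
  have h4 : deriv (cmob M) z = deriv ((fun z : ℂ => (M 0 0 : ℂ) * z + (M 0 1 : ℂ)) /
    (fun z : ℂ => (M 1 0 : ℂ) * z + (M 1 1 : ℂ))) z := rfl
  rw [h4, h3]
  congr 1
  push_cast
  ring

lemma cmob_sub (M : Matrix (Fin 2) (Fin 2) ℝ) (z w : ℂ) (hz : (M 1 0 : ℂ) * z + (M 1 1 : ℂ) ≠ 0)
    (hw : (M 1 0 : ℂ) * w + (M 1 1 : ℂ) ≠ 0) :
    cmob M z - cmob M w = ((M 0 0 * M 1 1 - M 0 1 * M 1 0 : ℝ) : ℂ) * (z - w) /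
      (((M 1 0 : ℂ) * z + (M 1 1 : ℂ)) * ((M 1 0 : ℂ) * w + (M 1 1 : ℂ))) := by
  unfold cmob
  rw [div_sub_div _ _ hz hw]
  congr 1
  push_cast
  ring

lemma Good.deriv_bounds (hε : 0 < ε) {M : Matrix (Fin 2) (Fin 2) ℝ} (h : Good ε M) {z : ℂ}
    (hz : z ∈ closure (nbhd ε)) : 0 < ‖deriv (cmob M) z‖ ∧ ‖deriv (cmob M) z‖ < 1 := by
  obtain ⟨x, hx, hd⟩ := closure_nbhd hε hz
  have hre : -(2 * ε) ≤ z.re := by
    have h1 := Complex.abs_re_le_norm (z - (x : ℂ))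
    rw [Complex.sub_re, Complex.ofReal_re] at h1
    have h2 := (abs_le.mp (h1.trans hd)).1
    linarith [hx.1]
  have h1 := h.den_ne hε hre
  have h2 := h.den_le hε hre
  have h3 := h.lin
  have h4 : 0 < ‖(M 1 0 : ℂ) * z + (M 1 1 : ℂ)‖ := norm_pos_iff.mpr h1
  rw [cmob_deriv M h1, norm_div, norm_pow, Complex.norm_real, Real.norm_eq_abs, abs_of_pos h.dt]
  refine ⟨div_pos h.dt (by positivity), ?_⟩
  rw [div_lt_one (by positivity)]
  exact h.big.trans_le (pow_le_pow_left₀ (by linarith) h2 2)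

lemma Good.maps_B (hε : 0 < ε) {M : Matrix (Fin 2) (Fin 2) ℝ} (h : Good ε M) {z : ℂ}
    (hz : z ∈ closure (nbhd ε)) : cmob M z ∈ nbhd ε := by
  obtain ⟨x, hx, hd⟩ := closure_nbhd hε hz
  have hre : -(2 * ε) ≤ z.re := by
    have h1 := Complex.abs_re_le_norm (z - (x : ℂ))
    rw [Complex.sub_re, Complex.ofReal_re] at h1
    have h2 := (abs_le.mp (h1.trans hd)).1
    linarith [hx.1]
  have hxre : -(2 * ε) ≤ (x : ℂ).re := by rw [Complex.ofReal_re]; linarith [hx.1]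
  have h1 := h.den_ne hε hre
  have h2 := h.den_le hε hre
  have h1' := h.den_ne hε hxre
  have h2' := h.den_le hε hxre
  have h3 := h.lin
  unfold nbhd
  rw [Metric.mem_thickening_iff]
  refine ⟨_, ⟨mob M x, h.ps.maps hx, rfl⟩, ?_⟩
  show dist (cmob M z) ((mob M x : ℝ) : ℂ) < ε
  rw [← cmob_ofReal, dist_eq_norm, cmob_sub M z x h1 h1', norm_div, norm_mul, norm_mul,
    Complex.norm_real, Real.norm_eq_abs, abs_of_pos h.dt]
  have h4 : 0 < M 1 1 - 2 * ε * M 1 0 := by linarith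
  have h5 : (M 1 1 - 2 * ε * M 1 0) ^ 2 ≤ ‖(M 1 0 : ℂ) * z + (M 1 1 : ℂ)‖ * ‖(M 1 0 : ℂ) * x + (M 1 1 : ℂ)‖ := by
    rw [pow_two]; exact mul_le_mul h2 h2' h4.le (h4.le.trans h2)
  have h6 : 0 < ‖(M 1 0 : ℂ) * z + (M 1 1 : ℂ)‖ * ‖(M 1 0 : ℂ) * x + (M 1 1 : ℂ)‖ :=
    lt_of_lt_of_le (by positivity) h5
  rw [div_lt_iff₀ h6]
  calc (M 0 0 * M 1 1 - M 0 1 * M 1 0) * ‖z - (x : ℂ)‖ ≤ (M 0 0 * M 1 1 - M 0 1 * M 1 0) * ε :=
        mul_le_mul_of_nonneg_left hd h.dt.le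
    _ < (M 1 1 - 2 * ε * M 1 0) ^ 2 * ε := mul_lt_mul_of_pos_right h.big hε
    _ ≤ _ := by rw [mul_comm]; exact mul_le_mul_of_nonneg_left h5 hε.le

/-- Real contraction. -/
lemma Ps.contract {M : Matrix (Fin 2) (Fin 2) ℝ} (h : Ps M) (hc : M.det < M 1 1 ^ 2) {x y : ℝ}
    (hx : x ∈ Icc (0 : ℝ) 1) (hy : y ∈ Icc (0 : ℝ) 1) : |mob M x - mob M y| ≤ |x - y| := by
  have dx := h.den hx.1
  have dy := h.den hy.1
  rw [mob_sub M x y dx.ne' dy.ne', abs_div, abs_mul, abs_of_pos h.dt, abs_of_pos (mul_pos dx dy),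
    div_le_iff₀ (mul_pos dx dy), mul_comm]
  apply mul_le_mul_of_nonneg_left _ (abs_nonneg _)
  have e1 : M 1 1 ≤ M 1 0 * x + M 1 1 := by have := mul_nonneg h.p10 hx.1; linarith
  have e2 : M 1 1 ≤ M 1 0 * y + M 1 1 := by have := mul_nonneg h.p10 hy.1; linarith
  calc M.det ≤ M 1 1 ^ 2 := hc.le
    _ = M 1 1 * M 1 1 := by ring
    _ ≤ _ := mul_le_mul e1 e2 h.p11.le dx.le

/-- Möbius maps of close matrices are close. -/
lemma Good.near {h g : Matrix (Fin 2) (Fin 2) ℝ} (hh : Good ε h) (hg : Good ε g) {δ : ℝ}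
    (hd : Cl (h - g) δ) {y : ℝ} (hy : y ∈ Icc (0 : ℝ) 1) : |mob h y - mob g y| ≤ 64 * δ := by
  have dh := hh.ps.den hy.1
  have dg := hg.ps.den hy.1
  have hδ : 0 ≤ δ := (abs_nonneg _).trans (hd 0 0)
  have e : mob h y - mob g y = (((h - g) 0 0 * y + (h - g) 0 1) * (g 1 0 * y + g 1 1)
      - (g 0 0 * y + g 0 1) * ((h - g) 1 0 * y + (h - g) 1 1)) /
      ((h 1 0 * y + h 1 1) * (g 1 0 * y + g 1 1)) := by
    unfold mob
    rw [div_sub_div _ _ dh.ne' dg.ne']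
    congr 1
    simp only [Matrix.sub_apply]
    ring
  have hlin : ∀ i, |(h - g) i 0 * y + (h - g) i 1| ≤ 2 * δ := by
    intro i
    refine (abs_add_le _ _).trans ?_
    have h1 := hd i 0
    have h2 := hd i 1
    rw [abs_mul, abs_of_nonneg hy.1]
    have h3 : |(h - g) i 0| * y ≤ δ * 1 := mul_le_mul h1 hy.2 hy.1 hδ
    linarith
  have hgd : |g 1 0 * y + g 1 1| ≤ 4 := by
    rw [abs_of_pos dg]
    have := mul_le_mul hg.h10 hy.2 hy.1 (by norm_num)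
    linarith [hg.h11]
  have hgn : |g 0 0 * y + g 0 1| ≤ 4 := by
    have h1 : 0 ≤ g 0 0 * y + g 0 1 := by
      have := hg.ps.p00; have := hy.1; have := hg.p01; positivity
    rw [abs_of_nonneg h1]
    have := mul_le_mul hg.h00 hy.2 hy.1 (by norm_num)
    linarith [hg.h01]
  have hden : (1 / 4 : ℝ) ≤ (h 1 0 * y + h 1 1) * (g 1 0 * y + g 1 1) := by
    have h1 : (1 / 2 : ℝ) ≤ h 1 0 * y + h 1 1 := by
      have := mul_nonneg hh.p10 hy.1; linarith [hh.lo]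
    have h2 : (1 / 2 : ℝ) ≤ g 1 0 * y + g 1 1 := by
      have := mul_nonneg hg.p10 hy.1; linarith [hg.lo]
    have := mul_le_mul h1 h2 (by norm_num) (by linarith)
    linarith
  rw [e, abs_div, abs_of_pos (mul_pos dh dg), div_le_iff₀ (mul_pos dh dg)]
  have h1 : |((h - g) 0 0 * y + (h - g) 0 1) * (g 1 0 * y + g 1 1)
      - (g 0 0 * y + g 0 1) * ((h - g) 1 0 * y + (h - g) 1 1)| ≤ 16 * δ := by
    refine (abs_sub _ _).trans ?_
    rw [abs_mul, abs_mul]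
    have a1 := mul_le_mul (hlin 0) hgd (abs_nonneg _) (by linarith)
    have a2 := mul_le_mul hgn (hlin 1) (abs_nonneg _) (by norm_num)
    linarith
  refine h1.trans ?_
  have := mul_le_mul_of_nonneg_left hden (by linarith : 0 ≤ 64 * δ)
  linarith

end Pool.Agent.Q40.MI
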