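import Pool.Agent.Q40.MI.ModP

/-! # Integer matrices of rank one modulo `p`: words do not share eigenvectors -/

namespace Pool.Agent.Q40.MI

open Matrix

/-- Parameters of the family. -/
structure Par (ι : Type*) where
  p : ℕ
  q : ℕ
  Q : ℕ
  ν : ι → ℕ
  hp : p.Prime
  hq : 0 < q
  hQ : 0 < Q
  inj : Function.Injective ν
  bd : ∀ l m, ν l * ν m + Q * q < p

namespace Par

variable {ι : Type*} (P : Par ι)

/-- The number `δ = 3 p + 1`. -/
def d : ℤ := 3 * P.p + 1

/-- The integer matrices. -/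
def B (l : ι) : Matrix (Fin 2) (Fin 2) ℤ :=
  !![P.p * P.q * P.Q + P.ν l * P.ν l * P.d, P.ν l * P.d * P.Q;
     P.ν l * P.d * P.q, P.d * P.q * P.Q]

/-- the common determinant -/
def D : ℤ := P.p * P.d * (P.q * P.Q) ^ 2

lemma det_B (l : ι) : (P.B l).det = P.D := by
  simp only [B, D, Matrix.det_fin_two_of]; ring

lemma d_pos : 0 < P.d := by unfold d; positivity

lemma p_pos : (0 : ℤ) < P.p := by exact_mod_cast P.hp.pos

lemma D_pos : 0 < P.D := by
  have := P.d_pos
  have := P.p_pos
  have h1 : (0 : ℤ) < P.q := by exact_mod_cast P.hq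
  have h2 : (0 : ℤ) < P.Q := by exact_mod_cast P.hQ
  unfold D; positivity

lemma p_dvd_D : (P.p : ℤ) ∣ P.D := by
  exact ⟨P.d * (P.q * P.Q) ^ 2, by unfold D; ring⟩

lemma B_mod (l : ι) : (Int.castRingHom (ZMod P.p)).mapMatrix (P.B l)
    = E (P.Q : ZMod P.p) (P.q : ZMod P.p) (P.ν l : ZMod P.p) (P.ν l : ZMod P.p) := by
  ext i j
  fin_cases i <;> fin_cases j <;> simp [B, E, d] 
  ring

lemma W_mod (w : List ι) : (Int.castRingHom (ZMod P.p)).mapMatrix (W P.B w)
    = W (fun l => E (P.Q : ZMod P.p) (P.q : ZMod P.p) (P.ν l : ZMod P.p) (P.ν l : ZMod P.p)) w := by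
  rw [W_map]; congr 1; ext1 l; exact P.B_mod l

lemma cast_ne {n : ℕ} (h0 : 0 < n) (h : n < P.p) : (n : ZMod P.p) ≠ 0 := by
  intro h1
  rw [ZMod.natCast_eq_zero_iff] at h1
  exact absurd (Nat.le_of_dvd h0 h1) (not_le.mpr h)

lemma hx (l m : ι) : (P.ν l : ZMod P.p) * (P.ν m : ZMod P.p) + (P.Q : ZMod P.p) * (P.q : ZMod P.p) ≠ 0 := by
  have := P.cast_ne (n := P.ν l * P.ν m + P.Q * P.q) (by have := P.hq; have := P.hQ; positivity) (P.bd l m)
  intro h; apply this; push_cast; exact h

lemma hx' (l m : ι) (h : l ≠ m) : (P.ν l : ZMod P.p) - (P.ν m : ZMod P.p) ≠ 0 := by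
  intro h1
  rw [sub_eq_zero, ZMod.natCast_eq_natCast_iff] at h1
  apply h
  apply P.inj
  have b1 := P.bd l l
  have b2 := P.bd m m
  have hqQ : 0 < P.Q * P.q := Nat.mul_pos P.hQ P.hq
  have c1 : P.ν l < P.p := by nlinarith
  have c2 : P.ν m < P.p := by nlinarith
  exact Nat.ModEq.eq_of_lt_of_lt h1 c1 c2

lemma q_ne [Nonempty ι] : (P.q : ZMod P.p) ≠ 0 := by
  obtain ⟨l⟩ := ‹Nonempty ι›
  refine P.cast_ne P.hq ?_
  have := P.bd l l
  have h1 := P.hQ
  have h2 := P.hq
  nlinarith

lemma Q_ne [Nonempty ι] : (P.Q : ZMod P.p) ≠ 0 := by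
  obtain ⟨l⟩ := ‹Nonempty ι›
  refine P.cast_ne P.hQ ?_
  have := P.bd l l
  have h1 := P.hQ
  have h2 := P.hq
  nlinarith

lemma trace_word (w : List ι) (hw : w ≠ []) : ¬ (P.p : ℤ) ∣ (W P.B w).trace := by
  have := Fact.mk P.hp
  intro h
  rw [← ZMod.intCast_zmod_eq_zero_iff_dvd] at h
  apply trace_word_ne (fun l => (P.ν l : ZMod P.p)) (P.Q : ZMod P.p) (P.q : ZMod P.p) P.hx w hw
  rw [← P.W_mod]
  simp only [Matrix.trace_fin_two, RingHom.mapMatrix_apply, Matrix.map_apply]
  rw [Matrix.trace_fin_two] at h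
  push_cast at h
  exact h

lemma tau (u v : List ι) (hu : u ≠ []) (hv : v ≠ []) (h : u.head hu ≠ v.head hv) :
    ¬ (P.p : ℤ) ∣ ((W P.B u).adjugate * W P.B v) 0 1 ∧
      (u.getLast hu ≠ v.getLast hv → ¬ (P.p : ℤ) ∣ ((W P.B u).adjugate * W P.B v).trace) := by
  have := Fact.mk P.hp
  have : Nonempty ι := ⟨u.head hu⟩
  obtain ⟨c, hc, hW⟩ := adj_mul (fun l => (P.ν l : ZMod P.p)) (P.Q : ZMod P.p) (P.q : ZMod P.p) P.hx u v hu hv
  have key : (Int.castRingHom (ZMod P.p)).mapMatrix ((W P.B u).adjugate * W P.B v)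
      = (c * ((P.ν (v.head hv) : ZMod P.p) - P.ν (u.head hu))) •
        !![(P.q : ZMod P.p) * P.Q * P.ν (v.getLast hv), P.q * P.Q * P.Q;
          - P.q * P.ν (u.getLast hu) * P.ν (v.getLast hv), - P.q * P.Q * P.ν (u.getLast hu)] := by
    rw [map_mul, RingHom.map_adjugate, W_mod, W_mod, hW]
  have hne : c * ((P.ν (v.head hv) : ZMod P.p) - P.ν (u.head hu)) ≠ 0 :=
    mul_ne_zero hc (P.hx' _ _ h.symm)
  constructor
  · intro h1
    rw [← ZMod.intCast_zmod_eq_zero_iff_dvd] at h1
    have h2 : (Int.castRingHom (ZMod P.p)).mapMatrix ((W P.B u).adjugate * W P.B v) 0 1 = 0 := h1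
    rw [key] at h2
    simp only [Matrix.smul_apply, smul_eq_mul] at h2
    have h3 : (!![(P.q : ZMod P.p) * P.Q * P.ν (v.getLast hv), P.q * P.Q * P.Q;
          - P.q * P.ν (u.getLast hu) * P.ν (v.getLast hv), - P.q * P.Q * P.ν (u.getLast hu)] :
          Matrix (Fin 2) (Fin 2) (ZMod P.p)) 0 1 = P.q * P.Q * P.Q := rfl
    rw [h3] at h2
    exact mul_ne_zero hne (mul_ne_zero (mul_ne_zero P.q_ne P.Q_ne) P.Q_ne) h2
  · intro hl h1
    rw [← ZMod.intCast_zmod_eq_zero_iff_dvd] at h1
    have h2 : ((Int.castRingHom (ZMod P.p)).mapMatrix ((W P.B u).adjugate * W P.B v)).trace = 0 := by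
      rw [Matrix.trace_fin_two] at h1 ⊢
      simp only [RingHom.mapMatrix_apply, Matrix.map_apply]
      push_cast at h1
      exact h1
    rw [key, Matrix.trace_smul, Matrix.trace_fin_two_of, smul_eq_mul] at h2
    have h3 : (P.q : ZMod P.p) * P.Q * P.ν (v.getLast hv) + - P.q * P.Q * P.ν (u.getLast hu)
      = P.q * P.Q * (P.ν (v.getLast hv) - P.ν (u.getLast hu)) := by ring
    rw [h3] at h2
    exact mul_ne_zero hne (mul_ne_zero (mul_ne_zero P.q_ne P.Q_ne) (P.hx' _ _ hl.symm)) h2

end Par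

/-- The determinant of the commutator of two matrices with the same determinant. -/
lemma det_comm {R : Type*} [CommRing R] (A B : Matrix (Fin 2) (Fin 2) R) (h : A.det = B.det) :
    (A * B - B * A).det = 4 * A.det ^ 2 - A.det * (A.trace ^ 2 + B.trace ^ 2)
      + (A * B).trace * (A.adjugate * B).trace := by
  have e : (A * B - B * A).det = 4 * (A.det * B.det) - B.det * A.trace ^ 2 - A.det * B.trace ^ 2
      + (A * B).trace * (A.adjugate * B).trace := by
    simp only [Matrix.det_fin_two, Matrix.trace_fin_two, Matrix.mul_apply, Fin.sum_univ_two,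
      Matrix.sub_apply, Matrix.adjugate_fin_two]
    simp
    ring
  rw [e, ← h]; ring

lemma trace_adj_conj {ι R : Type*} [CommRing R] (B : ι → Matrix (Fin 2) (Fin 2) R) {D : R}
    (hD : ∀ l, (B l).det = D) (a b u v : List ι) :
    ((W B (a ++ u ++ b)).adjugate * W B (a ++ v ++ b)).trace
      = D ^ (a.length + b.length) * ((W B u).adjugate * W B v).trace := by
  simp only [W_append, Matrix.adjugate_mul_distrib]
  have h1 : (W B a).adjugate * W B a = (D ^ a.length) • (1 : Matrix (Fin 2) (Fin 2) R) := by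
    rw [Matrix.adjugate_mul, det_W B hD]
  have h2 : W B b * (W B b).adjugate = (D ^ b.length) • (1 : Matrix (Fin 2) (Fin 2) R) := by
    rw [Matrix.mul_adjugate, det_W B hD]
  calc ((W B b).adjugate * ((W B u).adjugate * (W B a).adjugate) * (W B a * W B v * W B b)).trace
      = ((W B b).adjugate * ((W B u).adjugate * ((W B a).adjugate * W B a) * W B v * W B b)).trace := by
        simp only [Matrix.mul_assoc]
    _ = (((W B u).adjugate * ((W B a).adjugate * W B a) * W B v * W B b) * (W B b).adjugate).trace := by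
        rw [Matrix.trace_mul_comm]
    _ = ((W B u).adjugate * ((W B a).adjugate * W B a) * W B v * (W B b * (W B b).adjugate)).trace := by
        simp only [Matrix.mul_assoc]
    _ = _ := by
        rw [h1, h2]
        simp only [Matrix.mul_smul, Matrix.smul_mul, Matrix.mul_one, Matrix.trace_smul, smul_eq_mul]
        ring

namespace Par
variable {ι : Type*} (P : Par ι)

/-- Two different words of the same length have no common eigenvector. -/
theorem comm_ne [DecidableEq ι] (i j : List ι) (h : i.length = j.length) (hne : i ≠ j) :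
    (W P.B i * W P.B j - W P.B j * W P.B i).det ≠ 0 := by
  obtain ⟨a, b, u, v, hu, hv, hi, hj, hl, h1, h2⟩ := strip_both i j h hne
  have hdi : (W P.B i).det = P.D ^ i.length := det_W _ P.det_B i
  have hdj : (W P.B j).det = P.D ^ j.length := det_W _ P.det_B j
  have hij : (W P.B i).det = (W P.B j).det := by rw [hdi, hdj, h]
  rw [det_comm _ _ hij]
  have htau := (P.tau u v hu hv h1).2 h2
  have hz := P.trace_word (i ++ j) (by
    intro h0; rw [hi] at h0; simp only [List.append_eq_nil_iff] at h0; exact hu h0.1.1.2)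
  rw [W_append] at hz
  have hT : ((W P.B i).adjugate * W P.B j).trace
      = P.D ^ (a.length + b.length) * ((W P.B u).adjugate * W P.B v).trace := by
    rw [hi, hj]; exact trace_adj_conj P.B P.det_B a b u v
  set τ := ((W P.B u).adjugate * W P.B v).trace
  set z := (W P.B i * W P.B j).trace
  have hlen : i.length = a.length + b.length + u.length := by rw [hi]; simp; ring
  have hup : 0 < u.length := List.length_pos_iff.mpr hu
  rw [hT, hdi, hlen]
  have hfac : 4 * (P.D ^ (a.length + b.length + u.length)) ^ 2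
      - P.D ^ (a.length + b.length + u.length) * ((W P.B i).trace ^ 2 + (W P.B j).trace ^ 2)
      + z * (P.D ^ (a.length + b.length) * τ)
      = P.D ^ (a.length + b.length) * (P.D * (P.D ^ (u.length - 1) *
        (4 * P.D ^ (a.length + b.length + u.length) - ((W P.B i).trace ^ 2 + (W P.B j).trace ^ 2)))
        + z * τ) := by
    obtain ⟨m, hm⟩ : ∃ m, u.length = m + 1 := ⟨u.length - 1, by omega⟩
    rw [hm, Nat.add_sub_cancel]
    ring
  rw [hfac]
  refine mul_ne_zero (pow_ne_zero _ P.D_pos.ne') ?_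
  intro h0
  have hdvd : (P.p : ℤ) ∣ z * τ := by
    have e : z * τ = -(P.D * (P.D ^ (u.length - 1) *
        (4 * P.D ^ (a.length + b.length + u.length) - ((W P.B i).trace ^ 2 + (W P.B j).trace ^ 2)))) := by
      linarith
    rw [e]
    exact (dvd_neg.mpr (Dvd.dvd.mul_right P.p_dvd_D _))
  have hpr : Prime (P.p : ℤ) := Nat.prime_iff_prime_int.mp P.hp
  rcases hpr.dvd_or_dvd hdvd with h3 | h3
  · exact hz h3
  · exact htau h3

/-- The entry `0 1` of `A_u⁻¹ A_v` is nonzero. -/
theorem entry_ne [DecidableEq ι] (u v : List ι) (h : u.length = v.length) (hne : u ≠ v) :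
    ((W P.B u).adjugate * W P.B v) 0 1 ≠ 0 := by
  obtain ⟨a, u', v', hu, hv, h1, h2, h3, h4⟩ := strip_prefix u v h hne
  have htau := (P.tau u' v' hu hv h4).1
  have e : (W P.B u).adjugate * W P.B v = P.D ^ a.length • ((W P.B u').adjugate * W P.B v') := by
    rw [h1, h2, W_append, W_append, Matrix.adjugate_mul_distrib]
    have h1 : (W P.B a).adjugate * W P.B a = (P.D ^ a.length) • (1 : Matrix (Fin 2) (Fin 2) ℤ) := by
      rw [Matrix.adjugate_mul, det_W P.B P.det_B]
    calc (W P.B u').adjugate * (W P.B a).adjugate * (W P.B a * W P.B v')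
        = (W P.B u').adjugate * ((W P.B a).adjugate * W P.B a) * W P.B v' := by
          simp only [Matrix.mul_assoc]
      _ = _ := by
        rw [h1]
        simp only [Matrix.mul_smul, Matrix.smul_mul, Matrix.mul_one]
  rw [e, Matrix.smul_apply, smul_eq_mul]
  refine mul_ne_zero (pow_ne_zero _ P.D_pos.ne') ?_
  intro h0
  exact htau (h0 ▸ dvd_zero _)

/-- The trace of `A_u⁻¹ A_v` is not `2`. -/
theorem trace_ne_two [DecidableEq ι] (u v : List ι) (h : u.length = v.length) (hne : u ≠ v) :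
    ((W P.B u).adjugate * W P.B v).trace ≠ 2 * P.D ^ u.length := by
  obtain ⟨a, b, u', v', hu, hv, hi, hj, hl, h1, h2⟩ := strip_both u v h hne
  have htau := (P.tau u' v' hu hv h1).2 h2
  have hT : ((W P.B u).adjugate * W P.B v).trace
      = P.D ^ (a.length + b.length) * ((W P.B u').adjugate * W P.B v').trace := by
    rw [hi, hj]; exact trace_adj_conj P.B P.det_B a b u' v'
  have hlen : u.length = a.length + b.length + u'.length := by rw [hi]; simp; ring
  have hup : 0 < u'.length := List.length_pos_iff.mpr hu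
  rw [hT, hlen]
  intro h0
  have h5 : P.D ^ (a.length + b.length) * ((W P.B u').adjugate * W P.B v').trace
      = P.D ^ (a.length + b.length) * (2 * P.D ^ u'.length) := by rw [h0, pow_add]; ring
  have h6 := mul_left_cancel₀ (pow_ne_zero _ P.D_pos.ne') h5
  apply htau
  rw [h6]
  exact Dvd.dvd.mul_left (dvd_pow P.p_dvd_D hup.ne') 2

end Par

end Pool.Agent.Q40.MI
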