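import Pool.Agent.Q40.MI.ModP

/-! # Laurent polynomials of bounded degree; polynomial functions on matrices -/

namespace Pool.Agent.Q40.MI

open Matrix

/-- `g` is, away from zero, a Laurent polynomial with exponents between `-d` and `d`. -/
def LP (d : ℕ) (g : ℝ → ℝ) : Prop :=
  ∃ P : Polynomial ℝ, P.natDegree ≤ 2 * d ∧ ∀ τ : ℝ, τ ≠ 0 → τ ^ d * g τ = P.eval τ

namespace LP

lemma const (c : ℝ) : LP 0 (fun _ => c) := ⟨Polynomial.C c, by simp, fun τ _ => by simp⟩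

lemma mono {d d' : ℕ} (h : d ≤ d') {g : ℝ → ℝ} (hg : LP d g) : LP d' g := by
  obtain ⟨P, hP, h1⟩ := hg
  refine ⟨Polynomial.X ^ (d' - d) * P, ?_, fun τ hτ => ?_⟩
  · refine Polynomial.natDegree_mul_le.trans ?_
    rw [Polynomial.natDegree_X_pow]; omega
  · rw [Polynomial.eval_mul, Polynomial.eval_pow, Polynomial.eval_X, ← h1 τ hτ, ← mul_assoc,
      ← pow_add, Nat.sub_add_cancel h]

lemma add {d : ℕ} {f g : ℝ → ℝ} (hf : LP d f) (hg : LP d g) : LP d (fun τ => f τ + g τ) := by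
  obtain ⟨P, hP, h1⟩ := hf
  obtain ⟨P', hP', h1'⟩ := hg
  refine ⟨P + P', (Polynomial.natDegree_add_le _ _).trans (max_le hP hP'), fun τ hτ => ?_⟩
  rw [Polynomial.eval_add, ← h1 τ hτ, ← h1' τ hτ]; ring

lemma mul {d d' : ℕ} {f g : ℝ → ℝ} (hf : LP d f) (hg : LP d' g) : LP (d + d') (fun τ => f τ * g τ) := by
  obtain ⟨P, hP, h1⟩ := hf
  obtain ⟨P', hP', h1'⟩ := hg
  refine ⟨P * P', Polynomial.natDegree_mul_le.trans (by omega), fun τ hτ => ?_⟩
  rw [Polynomial.eval_mul, ← h1 τ hτ, ← h1' τ hτ]; ring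

lemma smul {d : ℕ} {f : ℝ → ℝ} (c : ℝ) (hf : LP d f) : LP d (fun τ => c * f τ) := by
  have := (const c).mul hf
  rwa [zero_add] at this

lemma const1 (c : ℝ) : LP 1 (fun _ => c) := (const c).mono (by norm_num)

lemma mul_id (c : ℝ) : LP 1 (fun τ => τ * c) := by
  refine ⟨Polynomial.C c * Polynomial.X ^ 2, ?_, fun τ _ => ?_⟩
  · exact (Polynomial.natDegree_C_mul_X_pow_le c 2).trans (by norm_num)
  · simp; ring

lemma div_id (c : ℝ) : LP 1 (fun τ => c / τ) := by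
  refine ⟨Polynomial.C c, by simp, fun τ hτ => ?_⟩
  simp; field_simp

theorem eval {σ : Type*} (Q : MvPolynomial σ ℝ) : ∃ d : ℕ, ∀ e : σ → ℝ → ℝ, (∀ i, LP 1 (e i)) →
    LP d (fun τ => MvPolynomial.eval (fun i => e i τ) Q) := by
  induction Q using MvPolynomial.induction_on with
  | C a => exact ⟨0, fun e _ => by simpa using const a⟩
  | add p q hp hq =>
    obtain ⟨d, hd⟩ := hp
    obtain ⟨d', hd'⟩ := hq
    refine ⟨max d d', fun e he => ?_⟩
    have h1 := ((hd e he).mono (le_max_left d d')).add ((hd' e he).mono (le_max_right d d'))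
    simpa using h1
  | mul_X p i hp =>
    obtain ⟨d, hd⟩ := hp
    refine ⟨d + 1, fun e he => ?_⟩
    have h1 := (hd e he).mul (he i)
    simpa using h1

theorem zero {d : ℕ} {g : ℝ → ℝ} (hg : LP d g) {ρ : ℝ} (h0 : 0 < ρ) (h1 : ρ < 1)
    (h : ∀ k ≤ 2 * d, g (ρ ^ k) = 0) : ∀ τ : ℝ, τ ≠ 0 → g τ = 0 := by
  obtain ⟨P, hP, hP1⟩ := hg
  have hinj : Function.Injective (fun k : Fin (2 * d + 1) => ρ ^ (k : ℕ)) := by
    intro i j hij
    exact Fin.ext (pow_right_injective₀ h0 h1.ne hij)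
  have hz : P = 0 := by
    refine Polynomial.eq_zero_of_natDegree_lt_card_of_eval_eq_zero P hinj (fun k => ?_) ?_
    · rw [← hP1 _ (pow_pos h0 _).ne', h _ (by have := k.2; omega), mul_zero]
    · rw [Fintype.card_fin]; omega
  intro τ hτ
  have := hP1 τ hτ
  rw [hz, Polynomial.eval_zero] at this
  exact (mul_eq_zero.mp this).resolve_left (pow_ne_zero _ hτ)

end LP

/-- Evaluation of a polynomial in four variables at a matrix. -/
noncomputable def ev (X : Matrix (Fin 2) (Fin 2) ℝ) (Q : MvPolynomial (Fin 2 × Fin 2) ℝ) : ℝ :=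
  MvPolynomial.eval (fun p => X p.1 p.2) Q

/-- Evaluation of `Q` at a matrix with polynomial entries. -/
noncomputable def pv (X : Matrix (Fin 2) (Fin 2) (Polynomial ℝ)) (Q : MvPolynomial (Fin 2 × Fin 2) ℝ) :
    Polynomial ℝ := MvPolynomial.aeval (fun p => X p.1 p.2) Q

lemma eval_pv (X : Matrix (Fin 2) (Fin 2) (Polynomial ℝ)) (Q : MvPolynomial (Fin 2 × Fin 2) ℝ) (t : ℝ) :
    (pv X Q).eval t = ev (X.map (Polynomial.eval t)) Q := by
  unfold pv ev
  have h := MvPolynomial.map_aeval (fun p : Fin 2 × Fin 2 => X p.1 p.2) (Polynomial.evalRingHom t) Q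
  simp only [Polynomial.coe_evalRingHom] at h
  rw [h]
  have h2 : (Polynomial.evalRingHom t).comp (algebraMap ℝ (Polynomial ℝ)) = RingHom.id ℝ := by
    ext x; simp
  rw [h2]
  rfl

/-- The conjugate of `s` by a diagonal matrix. -/
noncomputable def T (τ : ℝ) (s : Matrix (Fin 2) (Fin 2) ℝ) : Matrix (Fin 2) (Fin 2) ℝ :=
  !![s 0 0, s 0 1 / τ; τ * s 1 0, s 1 1]

lemma LP_T_right (X : Matrix (Fin 2) (Fin 2) ℝ) (p : Fin 2 × Fin 2) :
    LP 1 (fun σ => T σ X p.1 p.2) := by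
  obtain ⟨i, j⟩ := p
  fin_cases i <;> fin_cases j
  · exact LP.const1 _
  · exact LP.div_id _
  · exact LP.mul_id _
  · exact LP.const1 _

lemma LP_conj (A B s : Matrix (Fin 2) (Fin 2) ℝ) (i j : Fin 2) :
    LP 1 (fun τ => (A * T τ s * B) i j) := by
  have e : (fun τ => (A * T τ s * B) i j) = fun τ =>
      (B 0 j * (A i 0 * T τ s 0 0) + B 0 j * (A i 1 * T τ s 1 0)) +
      (B 1 j * (A i 0 * T τ s 0 1) + B 1 j * (A i 1 * T τ s 1 1)) := by
    ext τ
    simp only [Matrix.mul_apply, Fin.sum_univ_two]; ring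
  rw [e]
  exact ((((LP_T_right s (0, 0)).smul _).smul _).add (((LP_T_right s (1, 0)).smul _).smul _)).add
    ((((LP_T_right s (0, 1)).smul _).smul _).add (((LP_T_right s (1, 1)).smul _).smul _))

lemma LP_T_left (A B s : Matrix (Fin 2) (Fin 2) ℝ) (σ : ℝ) (p : Fin 2 × Fin 2) :
    LP 1 (fun τ => T σ (A * T τ s * B) p.1 p.2) := by
  obtain ⟨i, j⟩ := p
  fin_cases i <;> fin_cases j
  · exact LP_conj A B s 0 0
  · have := (LP_conj A B s 0 1).smul σ⁻¹
    have e : (fun τ => T σ (A * T τ s * B) 0 1) = fun τ => σ⁻¹ * (A * T τ s * B) 0 1 := by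
      ext τ; show (A * T τ s * B) 0 1 / σ = _; rw [div_eq_inv_mul]
    show LP 1 (fun τ => T σ (A * T τ s * B) 0 1)
    rw [e]; exact this
  · exact (LP_conj A B s 1 0).smul σ
  · exact LP_conj A B s 1 1

end Pool.Agent.Q40.MI
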