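import Pool.Agent.Q40.MI.Step

/-! # The limit of the construction -/

namespace Pool.Agent.Q40.MI

open Matrix

lemma nested_point {g r : ℕ → ℝ} (hr : ∀ k, 0 < r k) (h1 : ∀ k, |g (k + 1) - g k| ≤ r k / 2)
    (h2 : ∀ k, r (k + 1) ≤ r k / 2) : ∃ x, ∀ k, |x - g k| ≤ r k := by
  have hanti : Antitone fun k => Set.Icc (g k - r k) (g k + r k) := by
    apply antitone_nat_of_succ_le
    intro k
    have a1 := abs_le.mp (h1 k)
    have a2 := h2 k
    apply Set.Icc_subset_Icc <;> linarith [a1.1, a1.2]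
  have hx := ciSup_mem_iInter_Icc_of_antitone_Icc hanti (fun k => by have := hr k; linarith)
  refine ⟨⨆ n, (g n - r n), fun k => ?_⟩
  have := Set.mem_iInter.mp hx k
  rw [abs_le]
  constructor <;> linarith [this.1, this.2]

variable {β : Type} [DecidableEq β] [Countable β] {P : Par (β ⊕ Bool)}

theorem limit (hZ : ZD P) (a₀ b₀ c₀ d₀ : List β) (hab : b₀.length = a₀.length + 1)
    (hcd : d₀.length = c₀.length + 1) {r₀ : ℝ} (hr : 0 < r₀) (φ : ℕ → ℕ → ℝ)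
    (hφ : ∀ k n, 0 < φ k n) :
    ∃ (F : Bool → Matrix (Fin 2) (Fin 2) ℝ) (a b c d : ℕ → List β),
      (∀ s, Cl (F s - pr P a₀ b₀ c₀ d₀ s) r₀) ∧
      (∀ i j, i.length = j.length → i ≠ j → comm (Mb P) F i j ≠ 0) ∧
      (∀ k, (b k).length = (a k).length + 1) ∧ (∀ k, (d k).length = (c k).length + 1) ∧
      (∀ k, (a k).length < (a (k + 1)).length) ∧
      (∀ k s, Cl (pr P (a k) (b k) (c k) (d k) s - pr P a₀ b₀ c₀ d₀ s) r₀) ∧
      (∀ k, Cl (F false - qt (Mb P) (a k) (b k)) (φ k ((c (k + 1)).length + 1))) ∧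
      (∀ k, Cl (F true - qt (Mb P) (c (k + 1)) (d (k + 1))) (φ k ((a (k + 1)).length + 1))) := by
  obtain ⟨e, he⟩ := exists_surjective_nat (List (β ⊕ Bool) × List (β ⊕ Bool))
  let S := {x : List β × List β × List β × List β × ℝ //
    x.2.1.length = x.1.length + 1 ∧ x.2.2.2.1.length = x.2.2.1.length + 1 ∧ 0 < x.2.2.2.2}
  have hstep : ∀ (k : ℕ) (x : S), ∃ y : S, y.1.2.2.2.2 ≤ x.1.2.2.2.2 / 2 ∧
      x.1.1.length < y.1.1.length ∧
      (∀ s, Cl (pr P y.1.1 y.1.2.1 y.1.2.2.1 y.1.2.2.2.1 s - pr P x.1.1 x.1.2.1 x.1.2.2.1 x.1.2.2.2.1 s)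
        (x.1.2.2.2.2 / 2)) ∧
      (∀ F : Bool → Matrix (Fin 2) (Fin 2) ℝ,
        (∀ s, Cl (F s - pr P y.1.1 y.1.2.1 y.1.2.2.1 y.1.2.2.2.1 s) y.1.2.2.2.2) →
        Cl (F false - qt (Mb P) x.1.1 x.1.2.1) (φ k (y.1.2.2.1.length + 1)) ∧
        Cl (F true - qt (Mb P) y.1.2.2.1 y.1.2.2.2.1) (φ k (y.1.1.length + 1)) ∧
        ((e k).1.length = (e k).2.length → (e k).1 ≠ (e k).2 → comm (Mb P) F (e k).1 (e k).2 ≠ 0)) := by
    rintro k ⟨⟨a, b, c, d, r⟩, h1, h2, h3⟩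
    obtain ⟨a', b', c', d', r', g1, g2, g3, g4, g5, g6, g7⟩ :=
      step hZ a b c d h1 h2 h3 (e k).1 (e k).2 (φ k) (hφ k)
    exact ⟨⟨⟨a', b', c', d', r'⟩, g1, g2, g3⟩, g4, g5, g6, g7⟩
  choose nx hnx using hstep
  let x : ℕ → S := fun k => Nat.rec ⟨⟨a₀, b₀, c₀, d₀, r₀⟩, hab, hcd, hr⟩ (fun k s => nx k s) k
  have hx : ∀ k, x (k + 1) = nx k (x k) := fun k => rfl
  set p : ℕ → Bool → Matrix (Fin 2) (Fin 2) ℝ := fun k =>
    pr P (x k).1.1 (x k).1.2.1 (x k).1.2.2.1 (x k).1.2.2.2.1 with hp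
  set R : ℕ → ℝ := fun k => (x k).1.2.2.2.2 with hR
  have hRpos : ∀ k, 0 < R k := fun k => (x k).2.2.2
  have hR1 : ∀ k, R (k + 1) ≤ R k / 2 := fun k => by
    have := (hnx k (x k)).1
    rw [← hx] at this; exact this
  have hp1 : ∀ k s, Cl (p (k + 1) s - p k s) (R k / 2) := fun k => by
    have := (hnx k (x k)).2.2.1
    rw [← hx] at this; exact this
  have hpt : ∀ s i j, ∃ y, ∀ k, |y - p k s i j| ≤ R k := fun s i j =>
    nested_point hRpos (fun k => hp1 k s i j) hR1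
  choose F₀ hF using hpt
  let F : Bool → Matrix (Fin 2) (Fin 2) ℝ := F₀
  have hFC : ∀ k s, Cl (F s - p k s) (R k) := fun k s i j => hF s i j k
  have hp0 : ∀ k s, Cl (p k s - p 0 s) (R 0 - R k) := by
    intro k s
    induction k with
    | zero => intro i j; simp
    | succ k ih =>
      have h1 := (hp1 k s).add ih
      rw [sub_add_sub_cancel] at h1
      refine h1.mono ?_
      have := hR1 k
      linarith
  refine ⟨F, fun k => (x k).1.1, fun k => (x k).1.2.1, fun k => (x k).1.2.2.1,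
    fun k => (x k).1.2.2.2.1, fun s => hFC 0 s, ?_, fun k => (x k).2.1, fun k => (x k).2.2.1, ?_, ?_, ?_, ?_⟩
  · intro i j h1 h2
    obtain ⟨k, hk⟩ := he (i, j)
    have h3 := ((hnx k (x k)).2.2.2 F (by rw [← hx]; exact hFC (k + 1))).2.2
    rw [hk] at h3
    exact h3 h1 h2
  · intro k
    exact (hnx k (x k)).2.1
  · intro k s
    refine (hp0 k s).mono ?_
    have h1 := hRpos k
    have h2 : R 0 = r₀ := rfl
    linarith
  · intro k
    exact ((hnx k (x k)).2.2.2 F (by rw [← hx]; exact hFC (k + 1))).1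
  · intro k
    exact ((hnx k (x k)).2.2.2 F (by rw [← hx]; exact hFC (k + 1))).2.1

end Pool.Agent.Q40.MI
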