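import Mathlib

/-! # Products of rank one matrices, and integer matrices of rank one modulo a prime -/

namespace Pool.Agent.Q40.MI

open Matrix

/-- The product of the matrices of a word. -/
def W {ι R : Type*} [CommRing R] (B : ι → Matrix (Fin 2) (Fin 2) R) (w : List ι) :
    Matrix (Fin 2) (Fin 2) R := (w.map B).prod

section gen
variable {ι R : Type*} [CommRing R] (B : ι → Matrix (Fin 2) (Fin 2) R)

@[simp] lemma W_nil : W B [] = 1 := by simp [W]
@[simp] lemma W_cons (l : ι) (w : List ι) : W B (l :: w) = B l * W B w := by simp [W]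
lemma W_append (u v : List ι) : W B (u ++ v) = W B u * W B v := by simp [W]
lemma W_singleton (l : ι) : W B [l] = B l := by simp

lemma det_W {D : R} (h : ∀ l, (B l).det = D) (w : List ι) : (W B w).det = D ^ w.length := by
  induction w with
  | nil => simp
  | cons l w ih => rw [W_cons, det_mul, ih, h, List.length_cons, pow_succ, mul_comm]

lemma W_map {S : Type*} [CommRing S] (f : R →+* S) (w : List ι) :
    f.mapMatrix (W B w) = W (fun l => f.mapMatrix (B l)) w := by
  induction w with
  | nil => simp
  | cons l w ih => rw [W_cons, W_cons, map_mul, ih]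

lemma W_comp {κ : Type*} (e : κ → ι) (w : List κ) : W B (w.map e) = W (fun l => B (e l)) w := by
  simp [W, List.map_map]; rfl

lemma W_smul (c : R) (w : List ι) : W (fun l => c • B l) w = c ^ w.length • W B w := by
  induction w with
  | nil => simp
  | cons l w ih =>
    rw [W_cons, W_cons, ih, List.length_cons, pow_succ]
    simp only [smul_mul_assoc, Matrix.mul_smul, smul_smul]
    rw [mul_comm]

end gen

/-- The matrix of a word with first letter `l` and last letter `m`, up to a factor. -/
def E {k : Type*} [CommRing k] (s t x y : k) : Matrix (Fin 2) (Fin 2) k :=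
  !![x * y, x * s; t * y, t * s]

section field
variable {ι k : Type*} [Field k] (x : ι → k) (s t : k)

lemma W_rankone (hx : ∀ l m, x l * x m + s * t ≠ 0) (w : List ι) (hw : w ≠ []) :
    ∃ c : k, c ≠ 0 ∧ W (fun l => E s t (x l) (x l)) w = c • E s t (x (w.head hw)) (x (w.getLast hw)) := by
  induction w with
  | nil => exact absurd rfl hw
  | cons l w ih =>
    by_cases h : w = []
    · subst h; exact ⟨1, one_ne_zero, by simp⟩
    · obtain ⟨c, hc, hW⟩ := ih h
      refine ⟨c * (x l * x (w.head h) + s * t), mul_ne_zero hc (hx _ _), ?_⟩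
      rw [W_cons, hW, List.head_cons, List.getLast_cons h]
      ext i j
      fin_cases i <;> fin_cases j <;> simp [E, Matrix.mul_apply, Fin.sum_univ_two] <;> ring

/-- trace of a nonempty word is nonzero -/
lemma trace_word_ne (hx : ∀ l m, x l * x m + s * t ≠ 0) (w : List ι) (hw : w ≠ []) :
    (W (fun l => E s t (x l) (x l)) w).trace ≠ 0 := by
  obtain ⟨c, hc, hW⟩ := W_rankone x s t hx w hw
  rw [hW, Matrix.trace_smul, smul_eq_mul]
  refine mul_ne_zero hc ?_
  have := hx (w.head hw) (w.getLast hw)
  simp only [E, Matrix.trace_fin_two_of]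
  rwa [mul_comm t s]

lemma adj_mul (hx : ∀ l m, x l * x m + s * t ≠ 0) (u v : List ι) (hu : u ≠ []) (hv : v ≠ []) :
    ∃ c : k, c ≠ 0 ∧ (W (fun l => E s t (x l) (x l)) u).adjugate * W (fun l => E s t (x l) (x l)) v
      = (c * (x (v.head hv) - x (u.head hu))) •
        !![t * s * x (v.getLast hv), t * s * s; - t * x (u.getLast hu) * x (v.getLast hv),
          - t * s * x (u.getLast hu)] := by
  obtain ⟨c, hc, hW⟩ := W_rankone x s t hx u hu
  obtain ⟨c', hc', hW'⟩ := W_rankone x s t hx v hv
  refine ⟨c * c', mul_ne_zero hc hc', ?_⟩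
  rw [hW, hW', Matrix.adjugate_fin_two]
  ext i j
  fin_cases i <;> fin_cases j <;> simp [E, Matrix.mul_apply, Fin.sum_univ_two] <;> ring

end field

/-- Two different lists of the same length differ in the middle. -/
lemma strip_prefix {ι : Type*} [DecidableEq ι] : ∀ (u v : List ι), u.length = v.length → u ≠ v →
    ∃ (a u' v' : List ι) (hu : u' ≠ []) (hv : v' ≠ []), u = a ++ u' ∧ v = a ++ v' ∧
      u'.length = v'.length ∧ u'.head hu ≠ v'.head hv
  | [], [], _, h => absurd rfl h
  | [], _ :: _, h, _ => by simp at h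
  | _ :: _, [], h, _ => by simp at h
  | l :: u, m :: v, h, hne => by
    by_cases hlm : l = m
    · subst hlm
      obtain ⟨a, u', v', hu, hv, h1, h2, h3, h4⟩ := strip_prefix u v (by simpa using h)
        (fun h => hne (by rw [h]))
      exact ⟨l :: a, u', v', hu, hv, by rw [h1]; rfl, by rw [h2]; rfl, h3, h4⟩
    · exact ⟨[], l :: u, m :: v, by simp, by simp, rfl, rfl, h, by simpa using hlm⟩

lemma strip_both {ι : Type*} [DecidableEq ι] (u v : List ι) (h : u.length = v.length) (hne : u ≠ v) :
    ∃ (a b u' v' : List ι) (hu : u' ≠ []) (hv : v' ≠ []), u = a ++ u' ++ b ∧ v = a ++ v' ++ b ∧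
      u'.length = v'.length ∧ u'.head hu ≠ v'.head hv ∧ u'.getLast hu ≠ v'.getLast hv := by
  obtain ⟨a, u', v', hu, hv, h1, h2, h3, h4⟩ := strip_prefix u v h hne
  obtain ⟨b, u₂, v₂, hu₂, hv₂, k1, k2, k3, k4⟩ := strip_prefix u'.reverse v'.reverse (by simpa using h3)
    (fun h => h4 (by
      have := List.reverse_injective h
      subst this; rfl))
  have e1 : u' = u₂.reverse ++ b.reverse := by
    rw [← List.reverse_append, ← k1, List.reverse_reverse]
  have e2 : v' = v₂.reverse ++ b.reverse := by
    rw [← List.reverse_append, ← k2, List.reverse_reverse]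
  have hu' : u₂.reverse ≠ [] := by simpa using hu₂
  have hv' : v₂.reverse ≠ [] := by simpa using hv₂
  refine ⟨a, b.reverse, u₂.reverse, v₂.reverse, hu', hv', ?_, ?_, by simpa using k3, ?_, ?_⟩
  · rw [h1, e1, List.append_assoc]
  · rw [h2, e2, List.append_assoc]
  · intro h
    apply h4
    have a1 : u'.head hu = u₂.reverse.head hu' := by
      simp only [e1]; rw [List.head_append_of_ne_nil]
    have a2 : v'.head hv = v₂.reverse.head hv' := by
      simp only [e2]; rw [List.head_append_of_ne_nil]
    rw [a1, a2, h]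
  · rw [List.getLast_reverse, List.getLast_reverse]; exact k4

end Pool.Agent.Q40.MI
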