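import Mathlib

/-! # Two contracting Möbius maps without common fixed point are not simultaneously linearizable -/

namespace Pool.Agent.Q40.MI

open Matrix Set

/-- The Möbius map of a matrix. -/
noncomputable def mob (M : Matrix (Fin 2) (Fin 2) ℝ) (x : ℝ) : ℝ :=
  (M 0 0 * x + M 0 1) / (M 1 0 * x + M 1 1)

/-- A class of matrices whose Möbius maps preserve `[0,1]`. -/
structure Ps (M : Matrix (Fin 2) (Fin 2) ℝ) : Prop where
  p00 : 0 < M 0 0
  p01 : 0 ≤ M 0 1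
  p10 : 0 ≤ M 1 0
  p11 : 0 < M 1 1
  dt : 0 < M.det
  row : M 0 0 + M 0 1 ≤ M 1 0 + M 1 1

lemma Ps.den {M : Matrix (Fin 2) (Fin 2) ℝ} (h : Ps M) {x : ℝ} (hx : 0 ≤ x) : 0 < M 1 0 * x + M 1 1 := by
  have := h.p10; have := h.p11; positivity

lemma Ps.one : Ps (1 : Matrix (Fin 2) (Fin 2) ℝ) := by
  constructor <;> simp

lemma Ps.mul {A B : Matrix (Fin 2) (Fin 2) ℝ} (hA : Ps A) (hB : Ps B) : Ps (A * B) := by
  obtain ⟨a00, a01, a10, a11, ad, ar⟩ := hA
  obtain ⟨b00, b01, b10, b11, bd, br⟩ := hB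
  refine ⟨?_, ?_, ?_, ?_, by rw [Matrix.det_mul]; positivity, ?_⟩
  all_goals simp only [Matrix.mul_apply, Fin.sum_univ_two]
  · positivity
  · positivity
  · positivity
  · positivity
  · rw [Matrix.det_fin_two] at ad
    -- with b₁ = B00 + B01 ≤ b₂ = B10 + B11
    have h1 : A 0 1 ≤ A 1 1 := by
      by_contra h
      push Not at h
      have h2 : A 1 1 * (A 0 0 + A 0 1) ≤ A 1 1 * (A 1 0 + A 1 1) := mul_le_mul_of_nonneg_left ar a11.le
      have h3 : A 0 1 * A 1 0 < A 0 0 * A 1 1 := by linarith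
      have h4 : A 1 1 * A 1 0 ≤ A 0 1 * A 1 0 := mul_le_mul_of_nonneg_right h.le a10
      have h5 : A 1 1 * A 1 1 < A 1 1 * A 0 1 := mul_lt_mul_of_pos_left h a11
      nlinarith
    have h2 : 0 ≤ B 0 0 + B 0 1 := by positivity
    have e : A 1 0 * B 0 0 + A 1 1 * B 1 0 + (A 1 0 * B 0 1 + A 1 1 * B 1 1) -
        (A 0 0 * B 0 0 + A 0 1 * B 1 0 + (A 0 0 * B 0 1 + A 0 1 * B 1 1))
        = (B 0 0 + B 0 1) * (A 1 0 + A 1 1 - A 0 0 - A 0 1)
          + (B 1 0 + B 1 1 - B 0 0 - B 0 1) * (A 1 1 - A 0 1) := by ring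
    have h3 := mul_nonneg h2 (by linarith : 0 ≤ A 1 0 + A 1 1 - A 0 0 - A 0 1)
    have h4 := mul_nonneg (by linarith : 0 ≤ B 1 0 + B 1 1 - B 0 0 - B 0 1)
      (by linarith : 0 ≤ A 1 1 - A 0 1)
    linarith

lemma Ps.con_mul {A B : Matrix (Fin 2) (Fin 2) ℝ} (hA : Ps A) (hB : Ps B) (h1 : A.det < A 1 1 ^ 2)
    (h2 : B.det ≤ B 1 1 ^ 2) : (A * B).det < (A * B) 1 1 ^ 2 := by
  rw [Matrix.det_mul]
  simp only [Matrix.mul_apply, Fin.sum_univ_two]
  have h3 : A 1 1 * B 1 1 ≤ A 1 0 * B 0 1 + A 1 1 * B 1 1 := by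
    have := mul_nonneg hA.p10 hB.p01; linarith
  have h4 : (A 1 1 * B 1 1) ^ 2 ≤ (A 1 0 * B 0 1 + A 1 1 * B 1 1) ^ 2 :=
    pow_le_pow_left₀ (mul_pos hA.p11 hB.p11).le h3 2
  have h5 : A.det * B.det < A 1 1 ^ 2 * B 1 1 ^ 2 :=
    mul_lt_mul h1 h2 hB.dt (by positivity)
  calc A.det * B.det < A 1 1 ^ 2 * B 1 1 ^ 2 := h5
    _ = (A 1 1 * B 1 1) ^ 2 := by ring
    _ ≤ _ := h4

lemma Ps.maps {M : Matrix (Fin 2) (Fin 2) ℝ} (h : Ps M) {x : ℝ} (hx : x ∈ Icc (0 : ℝ) 1) :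
    mob M x ∈ Icc (0 : ℝ) 1 := by
  have hd := h.den hx.1
  refine ⟨div_nonneg (by have := h.p00; have := h.p01; have := hx.1; positivity) hd.le, ?_⟩
  unfold mob
  rw [div_le_one hd]
  have hdt := h.dt
  rw [Matrix.det_fin_two] at hdt
  have h1 : M 0 1 ≤ M 1 1 := by
    by_contra hc
    push Not at hc
    have h2 : M 1 1 * (M 0 0 + M 0 1) ≤ M 1 1 * (M 1 0 + M 1 1) :=
      mul_le_mul_of_nonneg_left h.row h.p11.le
    have h4 : M 1 1 * M 1 0 ≤ M 0 1 * M 1 0 := mul_le_mul_of_nonneg_right hc.le h.p10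
    have h5 : M 1 1 * M 1 1 < M 1 1 * M 0 1 := mul_lt_mul_of_pos_left hc h.p11
    nlinarith
  have h2 := mul_nonneg hx.1 (by linarith [h.row] : 0 ≤ M 1 0 + M 1 1 - M 0 0 - M 0 1)
  have h3 := mul_nonneg (by linarith [hx.2] : 0 ≤ 1 - x) (by linarith : 0 ≤ M 1 1 - M 0 1)
  nlinarith

lemma mob_mul (A B : Matrix (Fin 2) (Fin 2) ℝ) (x : ℝ) (h : B 1 0 * x + B 1 1 ≠ 0) :
    mob (A * B) x = mob A (mob B x) := by
  unfold mob
  simp only [Matrix.mul_apply, Fin.sum_univ_two]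
  have e1 : A 0 0 * ((B 0 0 * x + B 0 1) / (B 1 0 * x + B 1 1)) + A 0 1
      = ((A 0 0 * B 0 0 + A 0 1 * B 1 0) * x + (A 0 0 * B 0 1 + A 0 1 * B 1 1)) / (B 1 0 * x + B 1 1) := by
    rw [eq_div_iff h, add_mul, mul_assoc, div_mul_cancel₀ _ h]; ring
  have e2 : A 1 0 * ((B 0 0 * x + B 0 1) / (B 1 0 * x + B 1 1)) + A 1 1
      = ((A 1 0 * B 0 0 + A 1 1 * B 1 0) * x + (A 1 0 * B 0 1 + A 1 1 * B 1 1)) / (B 1 0 * x + B 1 1) := by
    rw [eq_div_iff h, add_mul, mul_assoc, div_mul_cancel₀ _ h]; ring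
  rw [e1, e2, div_div_div_cancel_right₀ h]

lemma mob_sub (M : Matrix (Fin 2) (Fin 2) ℝ) (x y : ℝ) (hx : M 1 0 * x + M 1 1 ≠ 0)
    (hy : M 1 0 * y + M 1 1 ≠ 0) :
    mob M x - mob M y = M.det * (x - y) / ((M 1 0 * x + M 1 1) * (M 1 0 * y + M 1 1)) := by
  unfold mob
  rw [div_sub_div _ _ hx hy, Matrix.det_fin_two]
  congr 1
  ring

/-- Factorisation of the fixed point equation. -/
lemma Ps.fix {M : Matrix (Fin 2) (Fin 2) ℝ} (h : Ps M) (hc : M.det < M 1 1 ^ 2) :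
    ∃ p m : ℝ, 0 ≤ p ∧ p ≤ 1 ∧ 0 < m ∧ m = M 1 1 - M 0 0 + M 1 0 * p ∧ p * m = M 0 1 ∧
      0 < M 0 0 - M 1 0 * p := by
  set f : ℝ → ℝ := fun x => M 1 0 * x ^ 2 + (M 1 1 - M 0 0) * x - M 0 1 with hf
  have hcont : ContinuousOn f (Icc 0 1) := by fun_prop
  have h0 : f 0 ≤ 0 := by simp only [hf]; have := h.p01; linarith
  have h1 : 0 ≤ f 1 := by simp only [hf]; have := h.row; linarith
  obtain ⟨p, hp, hfp⟩ := intermediate_value_Icc zero_le_one hcont ⟨h0, h1⟩
  simp only [hf] at hfp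
  have hpm : p * (M 1 1 - M 0 0 + M 1 0 * p) = M 0 1 := by linarith
  have hdt := h.dt
  rw [Matrix.det_fin_two] at hc hdt
  have hm : 0 < M 1 1 - M 0 0 + M 1 0 * p := by
    have key : M 0 1 = 0 → M 0 0 < M 1 1 := by
      intro h01
      rw [h01, zero_mul, sub_zero, pow_two] at hc
      exact lt_of_mul_lt_mul_right hc h.p11.le
    rcases hp.1.lt_or_eq with h3 | h3
    · rcases lt_trichotomy (M 1 1 - M 0 0 + M 1 0 * p) 0 with h4 | h4 | h4
      · have := mul_neg_of_pos_of_neg h3 h4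
        linarith [h.p01]
      · rw [h4, mul_zero] at hpm
        have := key hpm.symm
        have := mul_nonneg h.p10 hp.1
        linarith
      · exact h4
    · rw [← h3] at hpm ⊢
      rw [zero_mul] at hpm
      have := key hpm.symm
      linarith
  refine ⟨p, _, hp.1, hp.2, hm, rfl, hpm, ?_⟩
  have hden := h.den hp.1
  have e : M 0 0 * M 1 1 - M 0 1 * M 1 0 = (M 1 0 * p + M 1 1) * (M 0 0 - M 1 0 * p) := by
    rw [← hpm]; ring
  rw [e] at hdt
  exact (mul_pos_iff_of_pos_left hden).mp hdt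

lemma mob_sub_self (M : Matrix (Fin 2) (Fin 2) ℝ) {p m x : ℝ} (hm : m = M 1 1 - M 0 0 + M 1 0 * p)
    (hpm : p * m = M 0 1) (hx : M 1 0 * x + M 1 1 ≠ 0) :
    mob M x - x = (p - x) * (M 1 0 * x + m) / (M 1 0 * x + M 1 1) := by
  unfold mob
  rw [div_sub' hx]
  congr 1
  rw [← hpm]
  have : M 1 1 = m + M 0 0 - M 1 0 * p := by linarith
  rw [this]; ring

lemma analyticAt_mob (M : Matrix (Fin 2) (Fin 2) ℝ) {x : ℝ} (hx : M 1 0 * x + M 1 1 ≠ 0) :
    AnalyticAt ℝ (mob M) x := by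
  unfold mob
  exact (by fun_prop : AnalyticAt ℝ (fun x => M 0 0 * x + M 0 1) x).div (by fun_prop) hx

lemma mob_mono (M : Matrix (Fin 2) (Fin 2) ℝ) (hdt : 0 < M.det) {x y : ℝ} (hx : 0 < M 1 0 * x + M 1 1)
    (hy : 0 < M 1 0 * y + M 1 1) (hxy : x ≤ y) : mob M x ≤ mob M y := by
  have := mob_sub M y x hy.ne' hx.ne'
  have h2 : 0 ≤ M.det * (y - x) / ((M 1 0 * y + M 1 1) * (M 1 0 * x + M 1 1)) :=
    div_nonneg (mul_nonneg hdt.le (by linarith)) (by positivity)
  linarith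

/-- The main case. -/
theorem no_conj_aux (A B : Matrix (Fin 2) (Fin 2) ℝ) (hA : Ps A) (hB : Ps B)
    {pA mA pB mB q : ℝ} (hpA0 : 0 ≤ pA) (hpA1 : pA ≤ 1) (hmA : mA = A 1 1 - A 0 0 + A 1 0 * pA)
    (hpmA : pA * mA = A 0 1) (heA : 0 < A 0 0 - A 1 0 * pA)
    (hpB0 : 0 ≤ pB) (hmB : mB = B 1 1 - B 0 0 + B 1 0 * pB)
    (hpmB : pB * mB = B 0 1) (heB : 0 < B 0 0 - B 1 0 * pB)
    (hq : q < 0) (hqA : A 1 0 * q + mA = 0) (hqB : 0 < B 1 0 * q + mB)
    (g : ℝ → ℝ) (hg : AnalyticOnNhd ℝ g (Icc 0 1)) (hinj : InjOn g (Icc 0 1))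
    {l1 l2 t1 t2 : ℝ} (hl1 : |l1| < 1) (hl2 : l2 ≠ 0)
    (hgA : ∀ x ∈ Icc (0 : ℝ) 1, g (mob A x) = l1 * g x + t1)
    (hgB : ∀ x ∈ Icc (0 : ℝ) 1, g (mob B x) = l2 * g x + t2) : False := by
  -- denominators
  have denA : ∀ x, q ≤ x → 0 < A 1 0 * x + A 1 1 := by
    intro x hx
    have h1 := mul_le_mul_of_nonneg_left hx hA.p10
    linarith
  have linB : ∀ x, q ≤ x → B 1 0 * q + mB ≤ B 1 0 * x + mB := by
    intro x hx
    have h1 := mul_le_mul_of_nonneg_left hx hB.p10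
    linarith
  have denB : ∀ x, q ≤ x → 0 < B 1 0 * x + B 1 1 := by
    intro x hx
    have h1 := linB x hx
    linarith
  set E : ℝ → Prop := fun x₀ => ∃ G : ℝ → ℝ, AnalyticOnNhd ℝ G (Icc x₀ 1) ∧ EqOn G g (Icc 0 1) with hE
  -- trivial extension
  obtain ⟨η, hη, hEη⟩ : ∃ η > 0, E (-η) := by
    have h0 : AnalyticAt ℝ g 0 := hg 0 (left_mem_Icc.mpr zero_le_one)
    obtain ⟨η, hη, hb⟩ := Metric.eventually_nhds_iff_ball.mp h0.eventually_analyticAt
    refine ⟨η / 2, by positivity, g, fun x hx => ?_, fun x _ => rfl⟩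
    by_cases h : 0 ≤ x
    · exact hg x ⟨h, hx.2⟩
    · push Not at h
      apply hb
      rw [Metric.mem_ball, Real.dist_eq, sub_zero, abs_of_neg h]
      linarith [hx.1]
  have hEmono : ∀ x y, x ≤ y → E x → E y := by
    rintro x y hxy ⟨G, hG, hGg⟩
    exact ⟨G, hG.mono (Icc_subset_Icc_left hxy), hGg⟩
  have hEstep : ∀ x, q ≤ x → E (mob B x) → E x := by
    rintro x hx ⟨G, hG, hGg⟩
    refine ⟨fun y => l2⁻¹ * (G (mob B y) - t2), fun y hy => ?_, fun y hy => ?_⟩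
    · have hqy : q ≤ y := hx.trans hy.1
      have h1 : AnalyticAt ℝ (mob B) y := analyticAt_mob B (denB y hqy).ne'
      have hm : mob B y ∈ Icc (mob B x) 1 := by
        refine ⟨mob_mono B hB.dt (denB x hx) (denB y hqy) hy.1, ?_⟩
        by_cases h : 0 ≤ y
        · exact (hB.maps ⟨h, hy.2⟩).2
        · push Not at h
          have := mob_mono B hB.dt (denB y hqy) (denB 1 (by linarith)) hy.2
          exact this.trans (hB.maps (right_mem_Icc.mpr zero_le_one)).2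
      have h2 : AnalyticAt ℝ (fun y => G (mob B y)) y := (hG _ hm).fun_comp h1
      exact analyticAt_const.mul (h2.sub analyticAt_const)
    · simp only
      rw [hGg (hB.maps hy), hgB y hy]
      field_simp
      ring
  have hEpos : ∀ x, 0 ≤ x → E x := fun x hx => ⟨g, hg.mono (Icc_subset_Icc_left hx), fun _ _ => rfl⟩
  set c₀ := η * (B 1 0 * q + mB) / B 1 1 with hc₀
  have hc₀pos : 0 < c₀ := div_pos (mul_pos hη hqB) hB.p11
  have hgrow : ∀ x, q ≤ x → x ≤ -η → x + c₀ ≤ mob B x := by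
    intro x hx hx'
    have h1 := mob_sub_self B hmB hpmB (denB x hx).ne'
    have h2 : c₀ ≤ (pB - x) * (B 1 0 * x + mB) / (B 1 0 * x + B 1 1) := by
      rw [hc₀]
      apply div_le_div₀
      · exact mul_nonneg (by linarith) (hqB.le.trans (linB x hx))
      · exact mul_le_mul (by linarith) (linB x hx) hqB.le (by linarith)
      · exact denB x hx
      · have := mul_nonneg hB.p10 (by linarith : 0 ≤ -x)
        linarith
    linarith
  have hEn : ∀ n : ℕ, ∀ x, q ≤ x → -η - n * c₀ ≤ x → E x := by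
    intro n
    induction n with
    | zero => intro x _ hx; exact hEmono _ _ (by simpa using hx) hEη
    | succ n ih =>
      intro x hqx hx
      by_cases h : -η ≤ x
      · exact hEmono _ _ h hEη
      · push Not at h
        apply hEstep x hqx
        have h1 := hgrow x hqx h.le
        apply ih
        · linarith
        · push_cast at hx; linarith
  obtain ⟨n, hn⟩ := exists_nat_ge ((-η - q) / c₀)
  have hEq : E q := by
    apply hEn n q le_rfl
    rw [div_le_iff₀ hc₀pos] at hn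
    linarith
  obtain ⟨G, hG, hGg⟩ := hEq
  -- fixed points of A
  have hAq : mob A q = q := by
    have := mob_sub_self A hmA hpmA (denA q le_rfl).ne'
    rw [hqA, mul_zero, zero_div] at this
    linarith
  have hAp : mob A pA = pA := by
    have := mob_sub_self A hmA hpmA (denA pA (by linarith)).ne'
    rw [sub_self, zero_mul, zero_div] at this
    linarith
  have hAmaps : ∀ x ∈ Icc q 1, mob A x ∈ Icc q 1 := by
    intro x hx
    constructor
    · have := mob_mono A hA.dt (denA q le_rfl) (denA x hx.1) hx.1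
      rwa [hAq] at this
    · have := mob_mono A hA.dt (denA x hx.1) (denA 1 (by linarith)) hx.2
      exact this.trans (hA.maps (right_mem_Icc.mpr zero_le_one)).2
  have hfe : EqOn (fun x => G (mob A x)) (fun x => l1 * G x + t1) (Icc q 1) := by
    have a1 : AnalyticOnNhd ℝ (fun x => G (mob A x)) (Icc q 1) := fun x hx =>
      (hG _ (hAmaps x hx)).fun_comp (analyticAt_mob A (denA x hx.1).ne')
    have a2 : AnalyticOnNhd ℝ (fun x => l1 * G x + t1) (Icc q 1) := fun x hx =>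
      (analyticAt_const.mul (hG x hx)).add analyticAt_const
    refine a1.eqOn_of_preconnected_of_eventuallyEq a2 isPreconnected_Icc
      (z₀ := 1 / 2) ⟨by linarith, by norm_num⟩ ?_
    have : Ioo (0 : ℝ) 1 ∈ nhds (1 / 2 : ℝ) := Ioo_mem_nhds (by norm_num) (by norm_num)
    filter_upwards [this] with x hx
    have hx' := Ioo_subset_Icc_self hx
    rw [hGg (hA.maps hx'), hGg hx', hgA x hx']
  -- maximum argument
  have hqp : q ≤ pA := by linarith
  set c := t1 / (1 - l1) with hc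
  have hl1' : 1 - l1 ≠ 0 := by
    have := (abs_lt.mp hl1).2
    intro h; linarith
  have hcc : l1 * c + t1 = c := by rw [hc]; field_simp; ring
  have hGc : ContinuousOn G (Icc q pA) := fun x hx =>
    (hG x ⟨hx.1, hx.2.trans hpA1⟩).continuousAt.continuousWithinAt
  have hGc' : ContinuousOn (fun x => |G x - c|) (Icc q pA) := (hGc.sub continuousOn_const).abs
  obtain ⟨x₀, hx₀, hmax⟩ := isCompact_Icc.exists_isMaxOn (nonempty_Icc.mpr hqp) hGc'
  have hmc : ContinuousOn (mob A) (Icc q pA) := fun x hx =>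
    (analyticAt_mob A (denA x hx.1).ne').continuousAt.continuousWithinAt
  have hivt := intermediate_value_Icc hqp hmc
  rw [hAq, hAp] at hivt
  obtain ⟨y, hy, hyx⟩ := hivt hx₀
  have h1 := hfe (⟨hy.1, hy.2.trans hpA1⟩ : y ∈ Icc q 1)
  simp only at h1
  rw [hyx] at h1
  have h2 : G x₀ - c = l1 * (G y - c) := by rw [h1]; linarith
  have h3 : |G y - c| ≤ |G x₀ - c| := hmax hy
  have h4 : |G x₀ - c| = 0 := by
    have h5 : |G x₀ - c| ≤ |l1| * |G x₀ - c| := by
      calc |G x₀ - c| = |l1| * |G y - c| := by rw [h2, abs_mul]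
        _ ≤ _ := mul_le_mul_of_nonneg_left h3 (abs_nonneg _)
    have h6 := abs_nonneg (G x₀ - c)
    by_contra h7
    have h8 : 0 < |G x₀ - c| := lt_of_le_of_ne h6 (Ne.symm h7)
    have h9 := mul_lt_mul_of_pos_right hl1 h8
    linarith
  have hconst : ∀ x ∈ Icc q pA, G x = c := by
    intro x hx
    have h5 : |G x - c| ≤ |G x₀ - c| := hmax hx
    rw [h4] at h5
    have := abs_nonpos_iff.mp h5
    linarith
  have hfin : EqOn G (fun _ => c) (Icc q 1) := by
    refine hG.eqOn_of_preconnected_of_eventuallyEq (fun _ _ => analyticAt_const) isPreconnected_Icc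
      (z₀ := q / 2) ⟨by linarith, by linarith⟩ ?_
    have : Ioo q 0 ∈ nhds (q / 2) := Ioo_mem_nhds (by linarith) (by linarith)
    filter_upwards [this] with x hx
    exact hconst x ⟨hx.1.le, hx.2.le.trans hpA0⟩
  have e0 : g 0 = g 1 := by
    rw [← hGg (left_mem_Icc.mpr zero_le_one), ← hGg (right_mem_Icc.mpr zero_le_one),
      hfin ⟨hq.le, zero_le_one⟩, hfin (⟨by linarith, le_rfl⟩ : (1 : ℝ) ∈ Icc q 1)]
  exact zero_ne_one (hinj (left_mem_Icc.mpr zero_le_one) (right_mem_Icc.mpr zero_le_one) e0)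

/-- Contracting Möbius maps without common fixed point are not simultaneously linearizable. -/
theorem no_conj (A B : Matrix (Fin 2) (Fin 2) ℝ) (hA : Ps A) (hB : Ps B) (hcA : A.det < A 1 1 ^ 2)
    (hcB : B.det < B 1 1 ^ 2) (hne : (A * B - B * A).det ≠ 0)
    (g : ℝ → ℝ) (hg : AnalyticOnNhd ℝ g (Icc 0 1)) (hinj : InjOn g (Icc 0 1))
    {l1 l2 t1 t2 : ℝ} (hl1 : |l1| < 1) (hl1' : l1 ≠ 0) (hl2 : |l2| < 1) (hl2' : l2 ≠ 0)
    (hgA : ∀ x ∈ Icc (0 : ℝ) 1, g (mob A x) = l1 * g x + t1)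
    (hgB : ∀ x ∈ Icc (0 : ℝ) 1, g (mob B x) = l2 * g x + t2) : False := by
  obtain ⟨pA, mA, a0, a1, amp, am, apm, ae⟩ := hA.fix hcA
  obtain ⟨pB, mB, b0, b1, bmp, bm, bpm, be⟩ := hB.fix hcB
  have hcommon : ∀ q : ℝ, A 1 0 * q + mA = 0 → B 1 0 * q + mB = 0 → False := by
    intro q h1 h2
    apply hne
    -- (q, 1) is a common eigenvector
    have hA1 : A 0 0 * q + A 0 1 = q * (A 1 0 * q + A 1 1) := by
      have : (q - pA) * (A 1 0 * q + mA) = 0 := by rw [h1, mul_zero]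
      rw [am] at this apm
      linarith
    have hB1 : B 0 0 * q + B 0 1 = q * (B 1 0 * q + B 1 1) := by
      have : (q - pB) * (B 1 0 * q + mB) = 0 := by rw [h2, mul_zero]
      rw [bm] at this bpm
      linarith
    have a01 : A 0 1 = q * (A 1 0 * q + A 1 1) - A 0 0 * q := by linarith
    have b01 : B 0 1 = q * (B 1 0 * q + B 1 1) - B 0 0 * q := by linarith
    rw [Matrix.det_fin_two]
    simp only [Matrix.sub_apply, Matrix.mul_apply, Fin.sum_univ_two]
    rw [a01, b01]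
    ring
  by_cases hA0 : A 1 0 = 0
  · by_cases hB0 : B 1 0 = 0
    · apply hne
      rw [Matrix.det_fin_two]
      simp only [Matrix.sub_apply, Matrix.mul_apply, Fin.sum_univ_two, hA0, hB0]
      ring
    · have hBp : 0 < B 1 0 := lt_of_le_of_ne hB.p10 (Ne.symm hB0)
      refine no_conj_aux B A hB hA (q := - mB / B 1 0) b0 b1 bm bpm be a0 am apm ae
        (div_neg_of_neg_of_pos (by linarith) hBp) (by field_simp; ring) (by rw [hA0]; linarith)
        g hg hinj hl2 hl1' hgB hgA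
  · have hAp : 0 < A 1 0 := lt_of_le_of_ne hA.p10 (Ne.symm hA0)
    set qA := - mA / A 1 0 with hqA
    have hqAneg : qA < 0 := div_neg_of_neg_of_pos (by linarith) hAp
    have hqA0 : A 1 0 * qA + mA = 0 := by rw [hqA]; field_simp; ring
    rcases lt_trichotomy (B 1 0 * qA + mB) 0 with h | h | h
    · have hBp : 0 < B 1 0 := by
        rcases hB.p10.lt_or_eq with h1 | h1
        · exact h1
        · rw [← h1] at h; linarith
      set qB := - mB / B 1 0 with hqB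
      have hqBneg : qB < 0 := div_neg_of_neg_of_pos (by linarith) hBp
      have hqB0 : B 1 0 * qB + mB = 0 := by rw [hqB]; field_simp; ring
      have hlt : qA < qB := by
        have : B 1 0 * qA < B 1 0 * qB := by linarith
        exact lt_of_mul_lt_mul_left this hBp.le
      refine no_conj_aux B A hB hA (q := qB) b0 b1 bm bpm be a0 am apm ae hqBneg hqB0 ?_
        g hg hinj hl2 hl1' hgB hgA
      have := mul_lt_mul_of_pos_left hlt hAp
      linarith
    · exact (hcommon qA hqA0 h).elim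
    · exact no_conj_aux A B hA hB (q := qA) a0 a1 am apm ae b0 bm bpm be hqAneg hqA0 h
        g hg hinj hl1 hl2' hgA hgB

end Pool.Agent.Q40.MI
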