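import Pool.Agent.Q40.MI.ModP

/-! # Pigeonhole: words `u ≠ v` of the same length with `A_u⁻¹ A_v` close to `1` -/

namespace Pool.Agent.Q40.MI

open Matrix

section
variable {β : Type*} (M : β → Matrix (Fin 2) (Fin 2) ℝ) {κ : ℝ}

lemma W_nonneg (h0 : ∀ l i j, 0 ≤ M l i j) (w : List β) : ∀ i j, 0 ≤ W M w i j := by
  induction w with
  | nil => intro i j; fin_cases i <;> fin_cases j <;> simp
  | cons l w ih =>
    intro i j
    rw [W_cons, Matrix.mul_apply]
    exact Finset.sum_nonneg fun k _ => mul_nonneg (h0 _ _ _) (ih _ _)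

lemma W_row (h0 : ∀ l i j, 0 ≤ M l i j) (hκ : 1 ≤ κ) (hrow : ∀ l i, M l i 0 + M l i 1 ≤ κ)
    (w : List β) : ∀ i, W M w i 0 + W M w i 1 ≤ κ ^ w.length := by
  induction w with
  | nil => intro i; fin_cases i <;> simp
  | cons l w ih =>
    intro i
    have e : W M (l :: w) i 0 + W M (l :: w) i 1
        = M l i 0 * (W M w 0 0 + W M w 0 1) + M l i 1 * (W M w 1 0 + W M w 1 1) := by
      simp only [W_cons, Matrix.mul_apply, Fin.sum_univ_two]; ring
    rw [e, List.length_cons, pow_succ]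
    have h1 := mul_le_mul_of_nonneg_left (ih 0) (h0 l i 0)
    have h2 := mul_le_mul_of_nonneg_left (ih 1) (h0 l i 1)
    have h3 : (M l i 0 + M l i 1) * κ ^ w.length ≤ κ * κ ^ w.length :=
      mul_le_mul_of_nonneg_right (hrow l i) (by positivity)
    linarith [mul_comm κ (κ ^ w.length)]

lemma W_le (h0 : ∀ l i j, 0 ≤ M l i j) (hκ : 1 ≤ κ) (hrow : ∀ l i, M l i 0 + M l i 1 ≤ κ)
    (w : List β) (i j : Fin 2) : W M w i j ≤ κ ^ w.length := by
  have h1 := W_row M h0 hκ hrow w i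
  have h2 := W_nonneg M h0 w i 0
  have h3 := W_nonneg M h0 w i 1
  fin_cases j
  · show W M w i 0 ≤ _; linarith
  · show W M w i 1 ≤ _; linarith

lemma close_of_entries {A B : Matrix (Fin 2) (Fin 2) ℝ} {r K η : ℝ} (hr : 0 < r)
    (hdet : A.det = r) (hA : ∀ i j, |A i j| ≤ K) (h : ∀ i j, |B i j - A i j| ≤ η) (i j : Fin 2) :
    |(A⁻¹ * B - 1) i j| ≤ 2 * K * η / r := by
  have hK : 0 ≤ K := (abs_nonneg _).trans (hA 0 0)
  have hη : 0 ≤ η := (abs_nonneg _).trans (h 0 0)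
  have hu : IsUnit A.det := by rw [hdet]; exact isUnit_iff_ne_zero.mpr hr.ne'
  have e : A⁻¹ * B - 1 = r⁻¹ • (A.adjugate * (B - A)) := by
    have h1 : A⁻¹ * A = 1 := Matrix.nonsing_inv_mul A hu
    calc A⁻¹ * B - 1 = A⁻¹ * B - A⁻¹ * A := by rw [h1]
      _ = A⁻¹ * (B - A) := by rw [Matrix.mul_sub]
      _ = _ := by rw [Matrix.inv_def, hdet, Ring.inverse_eq_inv', Matrix.smul_mul]
  rw [e, Matrix.smul_apply, Matrix.mul_apply, Fin.sum_univ_two, smul_eq_mul, abs_mul, abs_inv,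
    abs_of_pos hr]
  have hadj : ∀ i j, |A.adjugate i j| ≤ K := by
    intro i j
    rw [Matrix.adjugate_fin_two]
    fin_cases i <;> fin_cases j <;> simp <;> exact hA _ _
  have h1 : |A.adjugate i 0 * (B - A) 0 j + A.adjugate i 1 * (B - A) 1 j| ≤ K * η + K * η := by
    refine (abs_add_le _ _).trans (add_le_add ?_ ?_)
    · rw [abs_mul]; exact mul_le_mul (hadj _ _) (h _ _) (abs_nonneg _) hK
    · rw [abs_mul]; exact mul_le_mul (hadj _ _) (h _ _) (abs_nonneg _) hK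
  calc r⁻¹ * |A.adjugate i 0 * (B - A) 0 j + A.adjugate i 1 * (B - A) 1 j|
      ≤ r⁻¹ * (K * η + K * η) := mul_le_mul_of_nonneg_left h1 (by positivity)
    _ = _ := by field_simp; ring

theorem pigeon [Fintype β] {ρ : ℝ} (hρ : 0 < ρ) (hρ1 : ρ ≤ 1) (h0 : ∀ l i j, 0 ≤ M l i j) (hκ : 1 ≤ κ)
    (hrow : ∀ l i, M l i 0 + M l i 1 ≤ κ) (hdet : ∀ l, (M l).det = ρ)
    (hcard : (κ ^ 2 / ρ) ^ 4 < Fintype.card β) {ε : ℝ} (hε : 0 < ε) :
    ∃ u v : List β, u.length = v.length ∧ u ≠ v ∧ ∀ i j, |((W M u)⁻¹ * W M v - 1) i j| < ε := by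
  classical
  set θ := κ ^ 2 / ρ with hθ
  have hκ0 : 0 < κ := by linarith
  have hθ1 : 1 ≤ θ := by
    rw [hθ, le_div_iff₀ hρ]; nlinarith
  have hN : (0 : ℝ) < Fintype.card β := lt_of_le_of_lt (by positivity) hcard
  set C := 4 / ε + 1 with hC
  have hCpos : 0 < C := by positivity
  obtain ⟨n, hn⟩ : ∃ n : ℕ, (θ ^ 4 / Fintype.card β) ^ n < 1 / C ^ 4 :=
    exists_pow_lt_of_lt_one (by positivity) (by rw [div_lt_one hN]; exact hcard)
  have hn' : (C * θ ^ n) ^ 4 < (Fintype.card β : ℝ) ^ n := by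
    rw [div_pow, div_lt_div_iff₀ (by positivity) (by positivity)] at hn
    calc (C * θ ^ n) ^ 4 = (θ ^ 4) ^ n * C ^ 4 := by rw [mul_pow, ← pow_mul, ← pow_mul]; ring
      _ < 1 * (Fintype.card β : ℝ) ^ n := hn
      _ = _ := one_mul _
  set η := ε * ρ ^ n / (4 * κ ^ n) with hη
  have hηpos : 0 < η := by positivity
  set K := ⌊κ ^ n / η⌋₊ + 1 with hK
  have hKle : (K : ℝ) ≤ C * θ ^ n := by
    have h1 : κ ^ n / η = 4 / ε * θ ^ n := by
      rw [hη, hθ, div_pow]; field_simp; ring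
    have h2 : (⌊κ ^ n / η⌋₊ : ℝ) ≤ κ ^ n / η := Nat.floor_le (by positivity)
    have h3 : 1 ≤ θ ^ n := one_le_pow₀ hθ1
    rw [hK]; push_cast
    have h2' := h2.trans_eq h1
    rw [hC, add_mul]; linarith
  have hcard2 : Fintype.card (Fin 2 → Fin 2 → Fin K) < Fintype.card (Fin n → β) := by
    have h1 : ((K ^ 4 : ℕ) : ℝ) < ((Fintype.card β ^ n : ℕ) : ℝ) := by
      push_cast
      exact lt_of_le_of_lt (pow_le_pow_left₀ (by positivity) hKle 4) hn'
    have h2 : K ^ 4 < Fintype.card β ^ n := by exact_mod_cast h1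
    simp only [Fintype.card_fun, Fintype.card_fin]
    calc (K ^ 2) ^ 2 = K ^ 4 := by ring
      _ < _ := h2
  have hlt : ∀ (u : Fin n → β) (i j : Fin 2), ⌊W M (List.ofFn u) i j / η⌋₊ < K := by
    intro u i j
    rw [hK, Nat.lt_succ_iff]
    apply Nat.floor_le_floor
    apply div_le_div_of_nonneg_right _ hηpos.le
    have := W_le M h0 hκ hrow (List.ofFn u) i j
    rwa [List.length_ofFn] at this
  obtain ⟨u, v, hne, huv⟩ := Fintype.exists_ne_map_eq_of_card_lt
    (fun (u : Fin n → β) (i j : Fin 2) => (⟨⌊W M (List.ofFn u) i j / η⌋₊, hlt u i j⟩ : Fin K)) hcard2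
  refine ⟨List.ofFn u, List.ofFn v, by simp, fun h => hne (List.ofFn_injective h), ?_⟩
  have hclose : ∀ i j, |W M (List.ofFn v) i j - W M (List.ofFn u) i j| ≤ η := by
    intro i j
    have h1 := congrFun (congrFun huv i) j
    simp only [Fin.mk.injEq] at h1
    have hu0 : 0 ≤ W M (List.ofFn u) i j / η := div_nonneg (W_nonneg M h0 _ _ _) hηpos.le
    have hv0 : 0 ≤ W M (List.ofFn v) i j / η := div_nonneg (W_nonneg M h0 _ _ _) hηpos.le
    have a1 := Nat.floor_le hu0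
    have a2 := Nat.lt_floor_add_one (W M (List.ofFn u) i j / η)
    have b1 := Nat.floor_le hv0
    have b2 := Nat.lt_floor_add_one (W M (List.ofFn v) i j / η)
    rw [h1] at a1 a2
    have h3 : |W M (List.ofFn v) i j / η - W M (List.ofFn u) i j / η| ≤ 1 := by
      rw [abs_le]; constructor <;> linarith
    rw [← sub_div, abs_div, abs_of_pos hηpos, div_le_one hηpos] at h3
    exact h3
  intro i j
  have hdetu : (W M (List.ofFn u)).det = ρ ^ n := by rw [det_W M hdet, List.length_ofFn]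
  have h1 := close_of_entries (A := W M (List.ofFn u)) (B := W M (List.ofFn v)) (K := κ ^ n)
    (pow_pos hρ n) hdetu (fun i j => by
      rw [abs_of_nonneg (W_nonneg M h0 _ _ _)]
      have := W_le M h0 hκ hrow (List.ofFn u) i j
      rwa [List.length_ofFn] at this) hclose i j
  refine lt_of_le_of_lt h1 ?_
  have h2 : 2 * κ ^ n * η / ρ ^ n = ε / 2 := by
    have := pow_pos hρ n
    rw [hη]; field_simp; norm_num
  rw [h2]; linarith

end

end Pool.Agent.Q40.MI
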