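import Pool.Agent.Q40.MI.IntMat

/-! # The normalised real matrices -/

namespace Pool.Agent.Q40.MI

open Matrix

namespace Par

variable {ι : Type*} (P : Par ι)

/-- contraction ratio at the origin -/
noncomputable def ρ : ℝ := P.p / (3 * P.p + 1)

/-- translation -/
noncomputable def a (l : ι) : ℝ := P.ν l / P.q

/-- non-linearity -/
noncomputable def c (l : ι) : ℝ := P.ν l / P.Q

/-- The matrix of `x ↦ a + ρ x / (1 + c x)`. -/
noncomputable def M (l : ι) : Matrix (Fin 2) (Fin 2) ℝ :=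
  !![P.ρ + P.a l * P.c l, P.a l; P.c l, 1]

/-- the scaling factor -/
noncomputable def κ : ℝ := (3 * P.p + 1) * P.q * P.Q

lemma pR_pos : (0 : ℝ) < P.p := by exact_mod_cast P.hp.pos
lemma qR_pos : (0 : ℝ) < P.q := by exact_mod_cast P.hq
lemma QR_pos : (0 : ℝ) < P.Q := by exact_mod_cast P.hQ
lemma κ_pos : 0 < P.κ := by
  have := P.pR_pos; have := P.qR_pos; have := P.QR_pos
  unfold κ; positivity
lemma ρ_pos : 0 < P.ρ := by
  have := P.pR_pos
  unfold ρ; positivity

lemma ρ_lt : P.ρ < 1 / 3 := by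
  have := P.pR_pos
  unfold ρ; rw [div_lt_div_iff₀ (by positivity) (by norm_num)]; linarith

lemma ρ_ge : 1 / 4 ≤ P.ρ := by
  have : (1 : ℝ) ≤ P.p := by exact_mod_cast P.hp.pos
  unfold ρ; rw [div_le_div_iff₀ (by norm_num) (by positivity)]; linarith

lemma a_nonneg (l : ι) : 0 ≤ P.a l := by unfold a; positivity
lemma c_nonneg (l : ι) : 0 ≤ P.c l := by unfold c; positivity

lemma det_M (l : ι) : (P.M l).det = P.ρ := by
  simp only [M, Matrix.det_fin_two_of]; ring

lemma B_cast (l : ι) : (Int.castRingHom ℝ).mapMatrix (P.B l) = P.κ • P.M l := by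
  have h1 := P.pR_pos.ne'; have h2 := P.qR_pos.ne'; have h3 := P.QR_pos.ne'
  have h4 : (3 * (P.p : ℝ) + 1) ≠ 0 := by have := P.pR_pos; positivity
  ext i j
  fin_cases i <;> fin_cases j <;> simp [B, M, d, κ, ρ, a, c] <;> field_simp

lemma W_cast (w : List ι) : (Int.castRingHom ℝ).mapMatrix (W P.B w) = P.κ ^ w.length • W P.M w := by
  rw [W_map]
  have : (fun l => (Int.castRingHom ℝ).mapMatrix (P.B l)) = fun l => P.κ • P.M l := by
    ext1 l; exact P.B_cast l
  rw [this, W_smul]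

lemma D_cast : ((P.D : ℤ) : ℝ) = P.ρ * P.κ ^ 2 := by
  have h4 : (3 * (P.p : ℝ) + 1) ≠ 0 := by have := P.pR_pos; positivity
  simp only [D, d, ρ, κ]; push_cast; field_simp

lemma det_WM (w : List ι) : (W P.M w).det = P.ρ ^ w.length := det_W _ P.det_M w

lemma det_WM_ne (w : List ι) : (W P.M w).det ≠ 0 := by
  rw [det_WM]; exact (pow_pos P.ρ_pos _).ne'

lemma isUnit_det (w : List ι) : IsUnit (W P.M w).det := isUnit_iff_ne_zero.mpr (P.det_WM_ne w)

lemma inv_eq (w : List ι) : (W P.M w)⁻¹ = (P.ρ ^ w.length)⁻¹ • (W P.M w).adjugate := by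
  rw [Matrix.inv_def, det_WM, Ring.inverse_eq_inv']

lemma adj_mul_cast (u v : List ι) (h : u.length = v.length) :
    (Int.castRingHom ℝ).mapMatrix ((W P.B u).adjugate * W P.B v)
      = ((P.D : ℤ) : ℝ) ^ u.length • ((W P.M u)⁻¹ * W P.M v) := by
  rw [map_mul, RingHom.map_adjugate, W_cast, W_cast, Matrix.adjugate_smul, inv_eq, D_cast, ← h]
  simp only [Fintype.card_fin, Matrix.smul_mul, Matrix.mul_smul, smul_smul]
  congr 1
  have := (pow_pos P.ρ_pos u.length).ne'
  rw [mul_pow]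
  field_simp
  norm_num
  ring

theorem entry_ne' [DecidableEq ι] (u v : List ι) (h : u.length = v.length) (hne : u ≠ v) :
    ((W P.M u)⁻¹ * W P.M v) 0 1 ≠ 0 := by
  intro h0
  apply P.entry_ne u v h hne
  have h1 : (Int.castRingHom ℝ).mapMatrix ((W P.B u).adjugate * W P.B v) 0 1 = 0 := by
    rw [P.adj_mul_cast u v h, Matrix.smul_apply, h0, smul_zero]
  have h2 : (((((W P.B u).adjugate * W P.B v) 0 1 : ℤ)) : ℝ) = 0 := h1
  exact_mod_cast h2

theorem trace_ne' [DecidableEq ι] (u v : List ι) (h : u.length = v.length) (hne : u ≠ v) :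
    ((W P.M u)⁻¹ * W P.M v).trace ≠ 2 := by
  intro h0
  apply P.trace_ne_two u v h hne
  have h1 : ((Int.castRingHom ℝ).mapMatrix ((W P.B u).adjugate * W P.B v)).trace
      = ((P.D : ℤ) : ℝ) ^ u.length * 2 := by
    rw [P.adj_mul_cast u v h, Matrix.trace_smul, h0, smul_eq_mul]
  have h2 : ((((W P.B u).adjugate * W P.B v).trace : ℤ) : ℝ) = ((2 * P.D ^ u.length : ℤ) : ℝ) := by
    rw [Matrix.trace_fin_two] at h1 ⊢
    simp only [RingHom.mapMatrix_apply, Matrix.map_apply] at h1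
    push_cast
    rw [mul_comm (2 : ℝ)]
    exact h1
  exact_mod_cast h2

theorem comm_ne' [DecidableEq ι] (i j : List ι) (h : i.length = j.length) (hne : i ≠ j) :
    (W P.M i * W P.M j - W P.M j * W P.M i).det ≠ 0 := by
  intro h0
  apply P.comm_ne i j h hne
  have h1 : (Int.castRingHom ℝ).mapMatrix (W P.B i * W P.B j - W P.B j * W P.B i)
      = (P.κ ^ i.length * P.κ ^ j.length) • (W P.M i * W P.M j - W P.M j * W P.M i) := by
    rw [map_sub, map_mul, map_mul, W_cast, W_cast]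
    simp only [Matrix.smul_mul, Matrix.mul_smul, smul_smul, smul_sub]
    rw [mul_comm (P.κ ^ j.length)]
  have h2 : ((Int.castRingHom ℝ).mapMatrix (W P.B i * W P.B j - W P.B j * W P.B i)).det = 0 := by
    rw [h1, Matrix.det_smul, h0, mul_zero]
  rw [← RingHom.map_det] at h2
  have h3 : (((W P.B i * W P.B j - W P.B j * W P.B i).det : ℤ) : ℝ) = 0 := h2
  exact_mod_cast h3

end Par

end Pool.Agent.Q40.MI
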