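import Pool.Agent.Q40.MI.ZDMain
import Pool.Agent.Q40.MI.RealMat
import Pool.Agent.Q40.MI.Pigeon

/-! # One step of the construction -/

namespace Pool.Agent.Q40.MI

open Matrix

variable {β : Type}

/-- The matrices of the letters: those of the base family, and two free ones. -/
def L (Mb : β → Matrix (Fin 2) (Fin 2) ℝ) (F : Bool → Matrix (Fin 2) (Fin 2) ℝ) :
    β ⊕ Bool → Matrix (Fin 2) (Fin 2) ℝ := Sum.elim Mb F

/-- The determinant of the commutator of two words. -/
noncomputable def comm (Mb : β → Matrix (Fin 2) (Fin 2) ℝ) (F : Bool → Matrix (Fin 2) (Fin 2) ℝ)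
    (i j : List (β ⊕ Bool)) : ℝ :=
  (W (L Mb F) i * W (L Mb F) j - W (L Mb F) j * W (L Mb F) i).det

lemma comm_poly [DecidableEq β] (Mb : β → Matrix (Fin 2) (Fin 2) ℝ) (F : Bool → Matrix (Fin 2) (Fin 2) ℝ)
    (s : Bool) (A B : Matrix (Fin 2) (Fin 2) ℝ) (i j : List (β ⊕ Bool)) :
    ∃ Q : MvPolynomial (Fin 2 × Fin 2) ℝ, ∀ S,
      ev S Q = comm Mb (Function.update F s (A * S * B)) i j := by
  set R := MvPolynomial (Fin 2 × Fin 2) ℝ
  set Lp : β ⊕ Bool → Matrix (Fin 2) (Fin 2) R := fun l =>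
    if l = Sum.inr s then
      (MvPolynomial.C).mapMatrix A * Matrix.mvPolynomialX (Fin 2) (Fin 2) ℝ * (MvPolynomial.C).mapMatrix B
    else (MvPolynomial.C).mapMatrix (L Mb F l) with hLp
  refine ⟨(W Lp i * W Lp j - W Lp j * W Lp i).det, fun S => ?_⟩
  unfold ev comm
  set f : R →+* ℝ := MvPolynomial.eval (fun p : Fin 2 × Fin 2 => S p.1 p.2) with hf
  have hC : ∀ A : Matrix (Fin 2) (Fin 2) ℝ, f.mapMatrix ((MvPolynomial.C).mapMatrix A) = A := by
    intro A
    ext i j
    exact MvPolynomial.eval_C _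
  have hX : f.mapMatrix (Matrix.mvPolynomialX (Fin 2) (Fin 2) ℝ) = S :=
    Matrix.mvPolynomialX_mapMatrix_eval S
  have hL : (fun l => f.mapMatrix (Lp l)) = L Mb (Function.update F s (A * S * B)) := by
    ext1 l
    by_cases h : l = Sum.inr s
    · subst h
      simp only [hLp, if_true, map_mul, hC, hX, L, Sum.elim_inr, Function.update_self]
    · simp only [hLp, if_neg h, hC]
      rcases l with l | b
      · rfl
      · have : b ≠ s := fun hb => h (by rw [hb])
        simp only [L, Sum.elim_inr, Function.update_of_ne this]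
  rw [RingHom.map_det, map_sub, map_mul, map_mul, W_map, W_map, hL]

variable (P : Par (β ⊕ Bool))

/-- The base family. -/
noncomputable def Mb : β → Matrix (Fin 2) (Fin 2) ℝ := fun l => P.M (Sum.inl l)

lemma det_Mb (l : β) : (Mb P l).det = P.ρ := P.det_M _

lemma W_Mb (w : List β) : W (Mb P) w = W P.M (w.map Sum.inl) := by
  rw [W_comp]; rfl

lemma isUnit_Mb (w : List β) : IsUnit (W (Mb P) w).det := by rw [W_Mb]; exact P.isUnit_det _

/-- Zariski density, for the base family. -/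
def ZD : Prop := ∀ (Q : MvPolynomial (Fin 2 × Fin 2) ℝ) (X : Matrix (Fin 2) (Fin 2) ℝ), X.det = 1 →
  ev X Q ≠ 0 → ∀ ε : ℝ, 0 < ε → ∃ u v : List β, u.length = v.length ∧ u ≠ v ∧
    Sm (qt (Mb P) u v - 1) ε ∧ ev (qt (Mb P) u v) Q ≠ 0

variable {P}

lemma perturb [DecidableEq β] (hZ : ZD P) (F : Bool → Matrix (Fin 2) (Fin 2) ℝ) (s : Bool) (a b : List β)
    (hab : b.length = a.length + 1) (i j : List (β ⊕ Bool)) (G : Matrix (Fin 2) (Fin 2) ℝ)
    (hG : G.det = P.ρ) (h : comm (Mb P) (Function.update F s G) i j ≠ 0) {η : ℝ} (hη : 0 < η) :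
    ∃ a' b' : List β, b'.length = a'.length + 1 ∧ a.length < a'.length ∧
      Sm (qt (Mb P) a' b' - qt (Mb P) a b) η ∧
      comm (Mb P) (Function.update F s (qt (Mb P) a' b')) i j ≠ 0 := by
  obtain ⟨Q, hQ⟩ := comm_poly (Mb P) F s ((W (Mb P) a)⁻¹) (W (Mb P) b) i j
  set X := W (Mb P) a * G * (W (Mb P) b)⁻¹ with hX
  have hXdet : X.det = 1 := by
    rw [hX, Matrix.det_mul, Matrix.det_mul, Matrix.det_nonsing_inv, hG, det_W _ (det_Mb P),
      det_W _ (det_Mb P), hab, Ring.inverse_eq_inv', pow_succ]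
    exact mul_inv_cancel₀ (mul_pos (pow_pos P.ρ_pos _) P.ρ_pos).ne'
  have hXQ : ev X Q ≠ 0 := by
    rw [hQ]
    have e : (W (Mb P) a)⁻¹ * X * W (Mb P) b = G := by
      rw [hX]
      have h1 : (W (Mb P) a)⁻¹ * (W (Mb P) a * G * (W (Mb P) b)⁻¹) * W (Mb P) b
        = ((W (Mb P) a)⁻¹ * W (Mb P) a) * G * ((W (Mb P) b)⁻¹ * W (Mb P) b) := by
        simp only [Matrix.mul_assoc]
      rw [h1, Matrix.nonsing_inv_mul _ (isUnit_Mb P a), Matrix.nonsing_inv_mul _ (isUnit_Mb P b),
        Matrix.one_mul, Matrix.mul_one]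
    rw [e]; exact h
  obtain ⟨C, hC, hCb⟩ := exists_conj_bound ((W (Mb P) a)⁻¹) (W (Mb P) b)
  obtain ⟨u, v, hl, hne, hs, hev⟩ := hZ Q X hXdet hXQ (η / C) (div_pos hη hC)
  have e : qt (Mb P) (u ++ a) (v ++ b) = (W (Mb P) a)⁻¹ * qt (Mb P) u v * W (Mb P) b := by
    unfold qt
    rw [W_append, W_append, Matrix.mul_inv_rev]
    simp only [Matrix.mul_assoc]
  have hu : 0 < u.length := by
    rcases Nat.eq_zero_or_pos u.length with h0 | h0
    · exfalso; apply hne
      rw [List.length_eq_zero_iff] at h0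
      rw [h0, List.length_nil] at hl
      rw [h0, List.length_eq_zero_iff.mp hl.symm]
    · exact h0
  refine ⟨u ++ a, v ++ b, by simp [hl, hab]; ring, by simp; omega, ?_, ?_⟩
  · have e2 : qt (Mb P) (u ++ a) (v ++ b) - qt (Mb P) a b
        = (W (Mb P) a)⁻¹ * (qt (Mb P) u v - 1) * W (Mb P) b := by
      rw [e, Matrix.mul_sub, Matrix.sub_mul, Matrix.mul_one]; rfl
    rw [e2]
    have := hCb _ _ hs
    rwa [mul_div_cancel₀ _ hC.ne'] at this
  · rw [e, ← hQ]; exact hev

/-- Entries at most `r`. -/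
def Cl (X : Matrix (Fin 2) (Fin 2) ℝ) (r : ℝ) : Prop := ∀ i j, |X i j| ≤ r

lemma Cl.add {X Y : Matrix (Fin 2) (Fin 2) ℝ} {r s : ℝ} (hX : Cl X r) (hY : Cl Y s) :
    Cl (X + Y) (r + s) := fun i j => (abs_add_le _ _).trans (add_le_add (hX i j) (hY i j))

lemma Cl.mono {X : Matrix (Fin 2) (Fin 2) ℝ} {r s : ℝ} (hX : Cl X r) (h : r ≤ s) : Cl X s :=
  fun i j => (hX i j).trans h

lemma Sm.cl {X : Matrix (Fin 2) (Fin 2) ℝ} {r : ℝ} (hX : Sm X r) : Cl X r := fun i j => (hX i j).le

lemma dist_lt_of {F F' : Bool → Fin 2 → Fin 2 → ℝ} {ε : ℝ} (hε : 0 < ε)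
    (h : ∀ s i j, |F' s i j - F s i j| ≤ ε / 2) : dist F' F < ε := by
  rw [dist_pi_lt_iff hε]
  intro s
  rw [dist_pi_lt_iff hε]
  intro i
  rw [dist_pi_lt_iff hε]
  intro j
  rw [Real.dist_eq]
  exact lt_of_le_of_lt (h s i j) (by linarith)

/-- Boxes are neighbourhoods. -/
lemma box_open {U : Set ((Bool → Matrix (Fin 2) (Fin 2) ℝ))} (hU : IsOpen U)
    {F : Bool → Matrix (Fin 2) (Fin 2) ℝ} (hF : F ∈ U) :
    ∃ r : ℝ, 0 < r ∧ ∀ F', (∀ s, Cl (F' s - F s) r) → F' ∈ U := by
  have hU' : IsOpen (X := Bool → Fin 2 → Fin 2 → ℝ) U := hU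
  obtain ⟨ε, hε, hb⟩ := Metric.isOpen_iff.mp hU' F hF
  refine ⟨ε / 2, by positivity, fun F' h => hb ?_⟩
  exact dist_lt_of hε fun s i j => h s i j

lemma continuous_W (Mb : β → Matrix (Fin 2) (Fin 2) ℝ) (w : List (β ⊕ Bool)) :
    Continuous (fun F : Bool → Matrix (Fin 2) (Fin 2) ℝ => W (L Mb F) w) := by
  induction w with
  | nil => simpa using continuous_const
  | cons l w ih =>
    simp only [W_cons]
    refine Continuous.matrix_mul ?_ ih
    rcases l with l | s
    · exact continuous_const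
    · exact continuous_apply s

lemma continuous_comm (Mb : β → Matrix (Fin 2) (Fin 2) ℝ) (i j : List (β ⊕ Bool)) :
    Continuous (fun F : Bool → Matrix (Fin 2) (Fin 2) ℝ => comm Mb F i j) := by
  unfold comm
  exact (((continuous_W Mb i).matrix_mul (continuous_W Mb j)).sub
    ((continuous_W Mb j).matrix_mul (continuous_W Mb i))).matrix_det

/-- The pair of matrices of a state. -/
noncomputable def pr (P : Par (β ⊕ Bool)) (a b c d : List β) : Bool → Matrix (Fin 2) (Fin 2) ℝ :=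
  fun s => if s then qt (Mb P) c d else qt (Mb P) a b

theorem step [DecidableEq β] (hZ : ZD P) (a b c d : List β) (hab : b.length = a.length + 1)
    (hcd : d.length = c.length + 1) {r : ℝ} (hr : 0 < r) (i j : List (β ⊕ Bool)) (φ : ℕ → ℝ)
    (hφ : ∀ n, 0 < φ n) :
    ∃ (a' b' c' d' : List β) (r' : ℝ), b'.length = a'.length + 1 ∧ d'.length = c'.length + 1 ∧
      0 < r' ∧ r' ≤ r / 2 ∧ a.length < a'.length ∧
      (∀ s, Cl (pr P a' b' c' d' s - pr P a b c d s) (r / 2)) ∧
      (∀ F : Bool → Matrix (Fin 2) (Fin 2) ℝ, (∀ s, Cl (F s - pr P a' b' c' d' s) r') →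
        Cl (F false - qt (Mb P) a b) (φ (c'.length + 1)) ∧
        Cl (F true - qt (Mb P) c' d') (φ (a'.length + 1)) ∧
        (i.length = j.length → i ≠ j → comm (Mb P) F i j ≠ 0)) := by
  -- avoid the pair `i, j` if needed
  obtain ⟨i, j, hij, hl, hne⟩ : ∃ i' j' : List (β ⊕ Bool), ((i.length = j.length → i ≠ j →
      i = i' ∧ j = j')) ∧ i'.length = j'.length ∧ i' ≠ j' := by
    by_cases h : i.length = j.length ∧ i ≠ j
    · exact ⟨i, j, fun _ _ => ⟨rfl, rfl⟩, h.1, h.2⟩
    · exact ⟨[Sum.inr false], [Sum.inr true], fun h1 h2 => absurd ⟨h1, h2⟩ h, rfl, by simp⟩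
  have hghost : comm (Mb P) (fun s => P.M (Sum.inr s)) i j ≠ 0 := by
    unfold comm
    have e : L (Mb P) (fun s => P.M (Sum.inr s)) = P.M := by
      ext1 l; rcases l with l | l <;> rfl
    rw [e]; exact P.comm_ne' i j hl hne
  set F0 : Bool → Matrix (Fin 2) (Fin 2) ℝ := fun s => P.M (Sum.inr s) with hF0
  obtain ⟨c', d', hcd', hcc', hs4, hne4⟩ := perturb hZ F0 true c d hcd i j (P.M (Sum.inr true))
    (P.det_M _) (by
      have : Function.update F0 true (P.M (Sum.inr true)) = F0 := Function.update_eq_self true F0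
      rw [this]; exact hghost) (half_pos hr)
  set F1 := Function.update F0 true (qt (Mb P) c' d') with hF1
  obtain ⟨a', b', hab', haa', hs3, hne3⟩ := perturb hZ F1 false a b hab i j (P.M (Sum.inr false))
    (P.det_M _) (by
      have : Function.update F1 false (P.M (Sum.inr false)) = F1 := by
        have h1 : P.M (Sum.inr false) = F1 false := by
          rw [hF1, Function.update_of_ne (by decide)]
        rw [h1]; exact Function.update_eq_self false F1
      rw [this]; exact hne4) (lt_min (half_pos hr) (half_pos (hφ (c'.length + 1))))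
  have hpr : Function.update F1 false (qt (Mb P) a' b') = pr P a' b' c' d' := by
    ext1 s
    cases s
    · simp [pr]
    · simp [pr, hF1]
  rw [hpr] at hne3
  obtain ⟨r₁, hr₁, hr₁'⟩ := box_open (U := {F | comm (Mb P) F i j ≠ 0})
    ((continuous_comm (Mb P) i j).isOpen_preimage _ isOpen_compl_singleton) hne3
  refine ⟨a', b', c', d', min (r / 2) (min r₁ (min (φ (c'.length + 1) / 2) (φ (a'.length + 1)))),
    hab', hcd', ?_, min_le_left _ _, haa', ?_, ?_⟩
  · exact lt_min (half_pos hr) (lt_min hr₁ (lt_min (half_pos (hφ _)) (hφ _)))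
  · intro s
    cases s
    · simpa [pr] using (hs3.mono (min_le_left _ _)).cl
    · simpa [pr] using hs4.cl
  · intro F hF
    refine ⟨?_, ?_, ?_⟩
    · have h1 := hF false
      have h2 : Cl (qt (Mb P) a' b' - qt (Mb P) a b) (φ (c'.length + 1) / 2) :=
        (hs3.mono (min_le_right _ _)).cl
      have h3 : Cl (F false - qt (Mb P) a' b') (φ (c'.length + 1) / 2) := by
        have h4 : pr P a' b' c' d' false = qt (Mb P) a' b' := by simp [pr]
        rw [h4] at h1
        exact h1.mono ((min_le_right _ _).trans ((min_le_right _ _).trans (min_le_left _ _)))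
      have h5 := h3.add h2
      rw [sub_add_sub_cancel, add_halves] at h5
      exact h5
    · have h1 := hF true
      have h4 : pr P a' b' c' d' true = qt (Mb P) c' d' := by simp [pr]
      rw [h4] at h1
      exact h1.mono ((min_le_right _ _).trans ((min_le_right _ _).trans (min_le_right _ _)))
    · intro h1 h2
      obtain ⟨rfl, rfl⟩ := hij h1 h2
      exact hr₁' F fun s => (hF s).mono ((min_le_right _ _).trans (min_le_left _ _))

end Pool.Agent.Q40.MI
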