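import Pool.Agent.Q40.MI.LP

/-! # Zariski density of the elements `A_u⁻¹ A_v` close to the identity -/

namespace Pool.Agent.Q40.MI

open Matrix

/-- All entries of `X` are smaller than `ε`. -/
def Sm (X : Matrix (Fin 2) (Fin 2) ℝ) (ε : ℝ) : Prop := ∀ i j, |X i j| < ε

lemma exists_conj_bound (A B : Matrix (Fin 2) (Fin 2) ℝ) : ∃ C : ℝ, 0 < C ∧
    ∀ (X : Matrix (Fin 2) (Fin 2) ℝ) (δ : ℝ), Sm X δ → Sm (A * X * B) (C * δ) := by
  refine ⟨1 + ∑ i, ∑ j, ∑ k, ∑ l, |A i k| * |B l j|, ?_, ?_⟩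
  · have : 0 ≤ ∑ i, ∑ j, ∑ k, ∑ l, |A i k| * |B l j| :=
      Finset.sum_nonneg fun i _ => Finset.sum_nonneg fun j _ => Finset.sum_nonneg fun k _ =>
        Finset.sum_nonneg fun l _ => by positivity
    linarith
  intro X δ hX i j
  have hδ : 0 < δ := lt_of_le_of_lt (abs_nonneg _) (hX 0 0)
  have h1 : |(A * X * B) i j| ≤ ∑ k, ∑ l, |A i k| * |B l j| * δ := by
    have e : (A * X * B) i j = ∑ k, ∑ l, A i k * X k l * B l j := by
      simp only [Matrix.mul_apply, Fin.sum_univ_two]; ring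
    rw [e]
    refine (Finset.abs_sum_le_sum_abs _ _).trans (Finset.sum_le_sum fun k _ => ?_)
    refine (Finset.abs_sum_le_sum_abs _ _).trans (Finset.sum_le_sum fun l _ => ?_)
    rw [abs_mul, abs_mul]
    have := (hX k l).le
    have h2 := abs_nonneg (A i k)
    have h3 := abs_nonneg (B l j)
    calc |A i k| * |X k l| * |B l j| = (|A i k| * |B l j|) * |X k l| := by ring
      _ ≤ _ := mul_le_mul_of_nonneg_left this (by positivity)
  have h2 : ∑ k, ∑ l, |A i k| * |B l j| * δ = (∑ k, ∑ l, |A i k| * |B l j|) * δ := by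
    simp only [Finset.sum_mul]
  have h3 : ∑ k, ∑ l, |A i k| * |B l j| ≤ ∑ i, ∑ j, ∑ k, ∑ l, |A i k| * |B l j| := by
    refine le_trans ?_ (Finset.single_le_sum (f := fun i => ∑ j, ∑ k, ∑ l, |A i k| * |B l j|)
      (fun i _ => Finset.sum_nonneg fun j _ => Finset.sum_nonneg fun k _ =>
        Finset.sum_nonneg fun l _ => by positivity) (Finset.mem_univ i))
    exact Finset.single_le_sum (f := fun j => ∑ k, ∑ l, |A i k| * |B l j|)
      (fun j _ => Finset.sum_nonneg fun k _ =>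
        Finset.sum_nonneg fun l _ => by positivity) (Finset.mem_univ j)
  refine lt_of_le_of_lt h1 ?_
  rw [h2]
  have h4 := mul_le_mul_of_nonneg_right h3 hδ.le
  linarith

lemma Sm.mono {X : Matrix (Fin 2) (Fin 2) ℝ} {a b : ℝ} (h : Sm X a) (hab : a ≤ b) : Sm X b :=
  fun i j => (h i j).trans_le hab

section
variable {β : Type*} (M : β → Matrix (Fin 2) (Fin 2) ℝ)

/-- The element `A_u⁻¹ A_v`. -/
noncomputable def qt (u v : List β) : Matrix (Fin 2) (Fin 2) ℝ := (W M u)⁻¹ * W M v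

lemma qt_append (u v z : List β) :
    qt M (u ++ z) (v ++ z) = (W M z)⁻¹ * qt M u v * W M z := by
  unfold qt
  rw [W_append, W_append, Matrix.mul_inv_rev]
  simp only [Matrix.mul_assoc]

lemma diag_conj {ρ : ℝ} (hρ : ρ ≠ 0) (s : Matrix (Fin 2) (Fin 2) ℝ) :
    (!![ρ, 0; 0, 1] : Matrix (Fin 2) (Fin 2) ℝ)⁻¹ * s * !![ρ, 0; 0, 1] = T ρ s := by
  have h : (!![ρ, 0; 0, 1] : Matrix (Fin 2) (Fin 2) ℝ)⁻¹ = !![ρ⁻¹, 0; 0, 1] := by
    apply Matrix.inv_eq_right_inv
    ext i j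
    fin_cases i <;> fin_cases j <;> simp [Matrix.mul_apply, Fin.sum_univ_two, hρ]
  rw [h]
  conv_lhs => rw [Matrix.eta_fin_two s, Matrix.mul_fin_two, Matrix.mul_fin_two]
  ext i j
  fin_cases i <;> fin_cases j <;> simp [T] <;> field_simp

lemma T_T (σ τ : ℝ) (s : Matrix (Fin 2) (Fin 2) ℝ) : T σ (T τ s) = T (τ * σ) s := by
  ext i j
  fin_cases i <;> fin_cases j <;> simp [T] <;> ring

lemma T_one (s : Matrix (Fin 2) (Fin 2) ℝ) : T 1 s = s := by
  ext i j
  fin_cases i <;> fin_cases j <;> simp [T]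

variable {ρ : ℝ} (hρ : 0 < ρ) {l₀ l₁ : β} (h₀ : M l₀ = !![ρ, 0; 0, 1])
include hρ h₀

lemma conj_rep (k : ℕ) (s : Matrix (Fin 2) (Fin 2) ℝ) :
    (W M (List.replicate k l₀))⁻¹ * s * W M (List.replicate k l₀) = T (ρ ^ k) s := by
  induction k generalizing s with
  | zero => simp [T_one]
  | succ k ih =>
    rw [List.replicate_succ, W_cons, Matrix.mul_inv_rev]
    have e : (W M (List.replicate k l₀))⁻¹ * (M l₀)⁻¹ * s * (M l₀ * W M (List.replicate k l₀))
        = (W M (List.replicate k l₀))⁻¹ * ((M l₀)⁻¹ * s * M l₀) * W M (List.replicate k l₀) := by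
      simp only [Matrix.mul_assoc]
    rw [e, h₀, diag_conj hρ.ne', ih, T_T, pow_succ, mul_comm]

lemma qt_z (k m : ℕ) (u v : List β) :
    qt M (u ++ (List.replicate k l₀ ++ l₁ :: List.replicate m l₀))
      (v ++ (List.replicate k l₀ ++ l₁ :: List.replicate m l₀))
      = T (ρ ^ m) ((M l₁)⁻¹ * T (ρ ^ k) (qt M u v) * M l₁) := by
  rw [qt_append M, W_append, Matrix.mul_inv_rev]
  have e : (W M (l₁ :: List.replicate m l₀))⁻¹ * (W M (List.replicate k l₀))⁻¹ * qt M u v *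
      (W M (List.replicate k l₀) * W M (l₁ :: List.replicate m l₀))
      = (W M (l₁ :: List.replicate m l₀))⁻¹ * ((W M (List.replicate k l₀))⁻¹ * qt M u v *
      W M (List.replicate k l₀)) * W M (l₁ :: List.replicate m l₀) := by
    simp only [Matrix.mul_assoc]
  rw [e, conj_rep M hρ h₀, W_cons, Matrix.mul_inv_rev]
  have e2 : (W M (List.replicate m l₀))⁻¹ * (M l₁)⁻¹ * T (ρ ^ k) (qt M u v) *
      (M l₁ * W M (List.replicate m l₀))
      = (W M (List.replicate m l₀))⁻¹ * ((M l₁)⁻¹ * T (ρ ^ k) (qt M u v) * M l₁) *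
        W M (List.replicate m l₀) := by
    simp only [Matrix.mul_assoc]
  rw [e2, conj_rep M hρ h₀]

end

/-- A polynomial that vanishes for arguments of arbitrarily large absolute value is zero. -/
lemma poly_zero_of_unbounded (P : Polynomial ℝ) (h : ∀ B : ℝ, ∃ x, B < |x| ∧ P.eval x = 0) : P = 0 := by
  by_contra hP
  have hfin : {x | P.IsRoot x}.Finite := Polynomial.finite_setOfPred_isRoot hP
  obtain ⟨B, hB⟩ := (hfin.image fun x => |x|).bddAbove
  obtain ⟨x, hx, hx0⟩ := h B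
  exact absurd (hB ⟨x, hx0, rfl⟩) (not_le.mpr hx)

/-- A polynomial with zeros arbitrarily close to `c` and different from `c` is zero. -/
lemma poly_zero_of_acc (P : Polynomial ℝ) (c : ℝ) (h : ∀ η : ℝ, 0 < η → ∃ x, x ≠ c ∧ |x - c| < η ∧ P.eval x = 0) :
    P = 0 := by
  by_contra hP
  have hfin : ({x | P.IsRoot x} \ {c}).Finite := (Polynomial.finite_setOfPred_isRoot hP).subset Set.sdiff_subset
  have ho : IsOpen ({x | P.IsRoot x} \ {c})ᶜ := hfin.isClosed.isOpen_compl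
  have hc : c ∈ ({x | P.IsRoot x} \ {c})ᶜ := by simp
  obtain ⟨η, hη, hb⟩ := Metric.isOpen_iff.mp ho c hc
  obtain ⟨x, hxc, hx, hx0⟩ := h η hη
  exact hb (by rw [Metric.mem_ball, Real.dist_eq]; exact hx) ⟨hx0, hxc⟩

section
variable {Q : MvPolynomial (Fin 2 × Fin 2) ℝ}

/-- Claim B. -/
lemma claimB {ρ a c : ℝ} (hρ : 0 < ρ) (hc : c ≠ 0) (s : Matrix (Fin 2) (Fin 2) ℝ)
    (hdet : s.det = 1) (hs : s 0 1 ≠ 0)
    (h : ∀ τ σ : ℝ, τ ≠ 0 → σ ≠ 0 → ev (T σ ((!![ρ + a * c, a; c, 1] : Matrix (Fin 2) (Fin 2) ℝ)⁻¹ *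
      T τ s * !![ρ + a * c, a; c, 1])) Q = 0) (x y : ℝ) (hy : y ≠ 0) :
    ev !![x, y; (x * (s.trace - x) - 1) / y, s.trace - x] Q = 0 := by
  set N : Matrix (Fin 2) (Fin 2) ℝ := !![ρ + a * c, a; c, 1] with hN
  have hNdet : N.det = ρ := by rw [hN, Matrix.det_fin_two_of]; ring
  have hNinv : N⁻¹ = !![1 / ρ, -a / ρ; -c / ρ, (ρ + a * c) / ρ] := by
    rw [Matrix.inv_def, hNdet, Ring.inverse_eq_inv', hN, Matrix.adjugate_fin_two_of]
    ext i j
    fin_cases i <;> fin_cases j <;> simp <;> field_simp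
  set P : Polynomial ℝ := pv !![Polynomial.X, Polynomial.C y;
    Polynomial.C (1 / y) * (Polynomial.X * (Polynomial.C s.trace - Polynomial.X) - 1),
    Polynomial.C s.trace - Polynomial.X] Q with hP
  have hPe : ∀ x, P.eval x = ev !![x, y; (x * (s.trace - x) - 1) / y, s.trace - x] Q := by
    intro x
    rw [hP, eval_pv]
    congr 1
    ext i j
    fin_cases i <;> fin_cases j <;> simp
    ring
  rw [← hPe]
  suffices hP0 : P = 0 by rw [hP0]; simp
  apply poly_zero_of_unbounded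
  intro B
  -- entries of the conjugate
  set s₁ := s 0 1 with hs1
  have key : ∀ τ : ℝ, 0 < τ → (N⁻¹ * T τ s * N) 0 1 ≠ 0 →
      P.eval ((N⁻¹ * T τ s * N) 0 0) = 0 := by
    intro τ hτ hne
    set X := N⁻¹ * T τ s * N with hX
    have hTdet : (T τ s).det = 1 := by
      rw [← hdet, T, Matrix.det_fin_two_of, Matrix.det_fin_two]; field_simp
    have hXdet : X.det = 1 := by
      rw [hX, Matrix.det_mul, Matrix.det_mul, hTdet, mul_one, ← Matrix.det_mul,
        Matrix.nonsing_inv_mul _ (by rw [hNdet]; exact isUnit_iff_ne_zero.mpr hρ.ne'), Matrix.det_one]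
    have hXtr : X.trace = s.trace := by
      rw [hX, Matrix.trace_mul_comm, ← Matrix.mul_assoc, Matrix.mul_nonsing_inv _
        (by rw [hNdet]; exact isUnit_iff_ne_zero.mpr hρ.ne'), Matrix.one_mul, T,
        Matrix.trace_fin_two_of, Matrix.trace_fin_two]
    rw [hPe, ← hXtr]
    have h1 := h τ (X 0 1 / y) hτ.ne' (div_ne_zero hne hy)
    rw [← hX] at h1
    rw [← h1]
    congr 1
    rw [Matrix.det_fin_two] at hXdet
    rw [Matrix.trace_fin_two]
    ext i j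
    fin_cases i <;> fin_cases j
    · simp [T]
    · simp [T]; field_simp
    · simp [T]; rw [div_mul_eq_mul_div]; congr 1; linarith
    · simp [T]
  -- behaviour for small τ
  have e00 : ∀ τ : ℝ, τ ≠ 0 → τ * ρ * (N⁻¹ * T τ s * N) 0 0
      = c * s₁ + τ * ((ρ + a * c) * s 0 0 - a * c * s 1 1) - τ ^ 2 * (a * (ρ + a * c) * s 1 0) := by
    intro τ hτ
    rw [hNinv, hN]
    simp [T, Matrix.mul_apply, Fin.sum_univ_two]
    field_simp
    ring
  have e01 : ∀ τ : ℝ, τ ≠ 0 → τ * ρ * (N⁻¹ * T τ s * N) 0 1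
      = s₁ + τ * (a * s 0 0 - a * s 1 1) - τ ^ 2 * (a ^ 2 * s 1 0) := by
    intro τ hτ
    rw [hNinv, hN]
    simp [T, Matrix.mul_apply, Fin.sum_univ_two]
    field_simp
    ring
  have c00 : Filter.Tendsto (fun τ : ℝ => c * s₁ + τ * ((ρ + a * c) * s 0 0 - a * c * s 1 1) -
      τ ^ 2 * (a * (ρ + a * c) * s 1 0)) (nhdsWithin 0 (Set.Ioi 0)) (nhds (c * s₁)) := by
    have : Continuous (fun τ : ℝ => c * s₁ + τ * ((ρ + a * c) * s 0 0 - a * c * s 1 1) -
      τ ^ 2 * (a * (ρ + a * c) * s 1 0)) := by fun_prop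
    have h1 := this.tendsto 0
    simp only [zero_mul, add_zero, ne_eq, OfNat.ofNat_ne_zero, not_false_eq_true, zero_pow, sub_zero] at h1
    exact h1.mono_left nhdsWithin_le_nhds
  have c01 : Filter.Tendsto (fun τ : ℝ => s₁ + τ * (a * s 0 0 - a * s 1 1) - τ ^ 2 * (a ^ 2 * s 1 0))
      (nhdsWithin 0 (Set.Ioi 0)) (nhds s₁) := by
    have : Continuous (fun τ : ℝ => s₁ + τ * (a * s 0 0 - a * s 1 1) - τ ^ 2 * (a ^ 2 * s 1 0)) := by
      fun_prop
    have h1 := this.tendsto 0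
    simp only [zero_mul, add_zero, ne_eq, OfNat.ofNat_ne_zero, not_false_eq_true, zero_pow, sub_zero] at h1
    exact h1.mono_left nhdsWithin_le_nhds
  have hcs : 0 < |c * s₁| := abs_pos.mpr (mul_ne_zero hc hs)
  have ev1 : ∀ᶠ τ in nhdsWithin (0 : ℝ) (Set.Ioi 0), |c * s₁| / 2 < |c * s₁ + τ * ((ρ + a * c) * s 0 0 -
      a * c * s 1 1) - τ ^ 2 * (a * (ρ + a * c) * s 1 0)| :=
    c00.abs.eventually (lt_mem_nhds (by linarith))
  have ev2 : ∀ᶠ τ in nhdsWithin (0 : ℝ) (Set.Ioi 0), s₁ + τ * (a * s 0 0 - a * s 1 1) -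
      τ ^ 2 * (a ^ 2 * s 1 0) ≠ 0 := c01.eventually_ne hs
  have ev3 : ∀ᶠ τ in nhdsWithin (0 : ℝ) (Set.Ioi 0), τ < |c * s₁| / 2 / (ρ * (|B| + 1)) :=
    (Filter.Tendsto.eventually_lt_const (by positivity) Filter.tendsto_id).filter_mono nhdsWithin_le_nhds
  have ev4 : ∀ᶠ τ in nhdsWithin (0 : ℝ) (Set.Ioi 0), 0 < τ := eventually_mem_nhdsWithin
  obtain ⟨τ, h1, h2, h3, h4⟩ := (ev1.and (ev2.and (ev3.and ev4))).exists
  refine ⟨(N⁻¹ * T τ s * N) 0 0, ?_, key τ h4 ?_⟩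
  · have h1' : |c * s₁| / 2 < τ * ρ * |(N⁻¹ * T τ s * N) 0 0| := by
      have h8 := e00 τ h4.ne'
      rw [← h8] at h1
      rwa [abs_mul (τ * ρ), abs_of_pos (mul_pos h4 hρ)] at h1
    rw [lt_div_iff₀ (by positivity)] at h3
    have h5 : τ * (ρ * (|B| + 1)) < τ * ρ * |(N⁻¹ * T τ s * N) 0 0| := h3.trans h1'
    have h6 : τ * ρ * (|B| + 1) < τ * ρ * |(N⁻¹ * T τ s * N) 0 0| := by linarith
    have h7 := lt_of_mul_lt_mul_left h6 (mul_pos h4 hρ).le
    have := le_abs_self B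
    linarith
  · intro h0
    apply h2
    rw [← e01 τ h4.ne', h0, mul_zero]

/-- Claim D. -/
lemma claimD (h : ∀ t x y : ℝ, y ≠ 0 → ev !![x, y; (x * (t - x) - 1) / y, t - x] Q = 0)
    (X : Matrix (Fin 2) (Fin 2) ℝ) (hX : X.det = 1) : ev X Q = 0 := by
  have h1 : ∀ Y : Matrix (Fin 2) (Fin 2) ℝ, Y.det = 1 → Y 0 1 ≠ 0 → ev Y Q = 0 := by
    intro Y hY hne
    have := h (Y 0 0 + Y 1 1) (Y 0 0) (Y 0 1) hne
    rw [← this]
    congr 1
    rw [Matrix.det_fin_two] at hY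
    ext i j
    fin_cases i <;> fin_cases j
    · simp
    · simp
    · simp; rw [eq_div_iff hne]; linarith
    · simp
  by_cases hne : X 0 1 = 0
  · have hdet := hX
    rw [Matrix.det_fin_two, hne, zero_mul, sub_zero] at hdet
    have h00 : X 0 0 ≠ 0 := fun h0 => by rw [h0, zero_mul] at hdet; exact zero_ne_one hdet
    set P : Polynomial ℝ := pv !![Polynomial.C (X 0 0), Polynomial.C (X 0 0) * Polynomial.X;
      Polynomial.C (X 1 0), Polynomial.C (X 1 0) * Polynomial.X + Polynomial.C (X 1 1)] Q with hP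
    have hPe : ∀ η, P.eval η = ev !![X 0 0, X 0 0 * η; X 1 0, X 1 0 * η + X 1 1] Q := by
      intro η
      rw [hP, eval_pv]
      congr 1
      ext i j
      fin_cases i <;> fin_cases j <;> simp
    have hP0 : P = 0 := by
      apply poly_zero_of_unbounded
      intro B
      refine ⟨|B| + 1, ?_, ?_⟩
      · rw [abs_of_pos (by positivity)]; linarith [le_abs_self B]
      · rw [hPe]
        apply h1
        · rw [Matrix.det_fin_two_of]; linarith
        · have : (0 : ℝ) < |B| + 1 := by positivity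
          simpa using ⟨h00, this.ne'⟩
    have h2 := hPe 0
    rw [hP0, Polynomial.eval_zero] at h2
    rw [h2]
    congr 1
    ext i j
    fin_cases i <;> fin_cases j <;> simp [hne]
  · exact h1 X hX hne

end

end Pool.Agent.Q40.MI
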