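import Pool.Agent.Q40.MI.ZD

/-! # Zariski density: main statement -/

namespace Pool.Agent.Q40.MI

open Matrix

theorem zariski_dense {β : Type*} (M : β → Matrix (Fin 2) (Fin 2) ℝ) {ρ a c : ℝ} (hρ : 0 < ρ)
    (hρ1 : ρ < 1) (hc : c ≠ 0) {l₀ l₁ : β} (h₀ : M l₀ = !![ρ, 0; 0, 1])
    (h₁ : M l₁ = !![ρ + a * c, a; c, 1]) (hdet : ∀ l, (M l).det = ρ)
    (hpig : ∀ ε : ℝ, 0 < ε → ∃ u v : List β, u.length = v.length ∧ u ≠ v ∧ Sm (qt M u v - 1) ε)
    (hent : ∀ u v : List β, u.length = v.length → u ≠ v → qt M u v 0 1 ≠ 0)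
    (htr : ∀ u v : List β, u.length = v.length → u ≠ v → (qt M u v).trace ≠ 2)
    (Q : MvPolynomial (Fin 2 × Fin 2) ℝ) (X : Matrix (Fin 2) (Fin 2) ℝ) (hX : X.det = 1)
    (hQ : ev X Q ≠ 0) (ε : ℝ) (hε : 0 < ε) :
    ∃ u v : List β, u.length = v.length ∧ u ≠ v ∧ Sm (qt M u v - 1) ε ∧ ev (qt M u v) Q ≠ 0 := by
  by_contra hcon
  push Not at hcon
  have hWd : ∀ w, (W M w).det = ρ ^ w.length := det_W M hdet
  have hunit : ∀ w, IsUnit (W M w).det := fun w => by
    rw [hWd]; exact isUnit_iff_ne_zero.mpr (pow_pos hρ _).ne'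
  obtain ⟨d, hd⟩ := LP.eval Q
  set z : ℕ → ℕ → List β := fun k m => List.replicate k l₀ ++ l₁ :: List.replicate m l₀ with hz
  have hC := fun k m => exists_conj_bound ((W M (z k m))⁻¹) (W M (z k m))
  choose C hCpos hC using hC
  set S := ∑ k ∈ Finset.range (2 * d + 1), ∑ m ∈ Finset.range (2 * d + 1), C k m with hS
  have hSle : ∀ k ≤ 2 * d, ∀ m ≤ 2 * d, C k m ≤ S := by
    intro k hk m hm
    refine le_trans ?_ (Finset.single_le_sum (f := fun k => ∑ m ∈ Finset.range (2 * d + 1), C k m)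
      (fun k _ => Finset.sum_nonneg fun m _ => (hCpos k m).le) (Finset.mem_range.mpr (Nat.lt_succ_of_le hk)))
    exact Finset.single_le_sum (f := fun m => C k m) (fun m _ => (hCpos k m).le)
      (Finset.mem_range.mpr (Nat.lt_succ_of_le hm))
  have hSpos : 0 < S := (hCpos 0 0).trans_le (hSle 0 (Nat.zero_le _) 0 (Nat.zero_le _))
  set ε' := ε / S with hε'
  have hε'pos : 0 < ε' := div_pos hε hSpos
  -- Claim A
  have hA : ∀ u v : List β, u.length = v.length → u ≠ v → Sm (qt M u v - 1) ε' →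
      ∀ τ σ : ℝ, τ ≠ 0 → σ ≠ 0 →
        ev (T σ ((M l₁)⁻¹ * T τ (qt M u v) * M l₁)) Q = 0 := by
    intro u v hl hne hs
    have h1 : ∀ k ≤ 2 * d, ∀ m ≤ 2 * d,
        ev (T (ρ ^ m) ((M l₁)⁻¹ * T (ρ ^ k) (qt M u v) * M l₁)) Q = 0 := by
      intro k hk m hm
      rw [← qt_z M hρ h₀]
      apply hcon
      · simp [hl]
      · intro h; exact hne (List.append_cancel_right h)
      · have e : qt M (u ++ z k m) (v ++ z k m) - 1
            = (W M (z k m))⁻¹ * (qt M u v - 1) * W M (z k m) := by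
          rw [qt_append, Matrix.mul_sub, Matrix.sub_mul, Matrix.mul_one,
            Matrix.nonsing_inv_mul _ (hunit _)]
        show Sm (qt M (u ++ z k m) (v ++ z k m) - 1) ε
        rw [e]
        refine (hC k m _ _ hs).mono ?_
        rw [hε', mul_div_assoc']
        rw [div_le_iff₀ hSpos, mul_comm]
        exact mul_le_mul_of_nonneg_left (hSle k hk m hm) hε.le
    have h2 : ∀ k ≤ 2 * d, ∀ σ : ℝ, σ ≠ 0 →
        ev (T σ ((M l₁)⁻¹ * T (ρ ^ k) (qt M u v) * M l₁)) Q = 0 := by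
      intro k hk
      exact LP.zero (hd (fun p σ => T σ ((M l₁)⁻¹ * T (ρ ^ k) (qt M u v) * M l₁) p.1 p.2)
        (fun p => LP_T_right _ p)) hρ hρ1 (fun m hm => h1 k hk m hm)
    intro τ σ hτ hσ
    exact LP.zero (hd (fun p τ => T σ ((M l₁)⁻¹ * T τ (qt M u v) * M l₁) p.1 p.2)
      (fun p => LP_T_left _ _ _ σ p)) hρ hρ1 (fun k hk => h2 k hk σ hσ) τ hτ
  -- Claim B
  have hB : ∀ u v : List β, u.length = v.length → u ≠ v → Sm (qt M u v - 1) ε' →
      ∀ x y : ℝ, y ≠ 0 → ev !![x, y; (x * ((qt M u v).trace - x) - 1) / y, (qt M u v).trace - x] Q = 0 := by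
    intro u v hl hne hs x y hy
    have h1 := hA u v hl hne hs
    rw [h₁] at h1
    refine claimB (ρ := ρ) (a := a) (c := c) hρ hc (qt M u v) ?_ (hent u v hl hne) h1 x y hy
    unfold qt
    rw [Matrix.det_mul, Matrix.det_nonsing_inv, hWd, hWd, hl, Ring.inverse_eq_inv',
      inv_mul_cancel₀ (pow_pos hρ _).ne']
  -- Claim C
  have hCc : ∀ t x y : ℝ, y ≠ 0 → ev !![x, y; (x * (t - x) - 1) / y, t - x] Q = 0 := by
    intro t x y hy
    set P : Polynomial ℝ := pv !![Polynomial.C x, Polynomial.C y;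
      Polynomial.C (1 / y) * (Polynomial.C x * (Polynomial.X - Polynomial.C x) - 1),
      Polynomial.X - Polynomial.C x] Q with hP
    have hPe : ∀ t, P.eval t = ev !![x, y; (x * (t - x) - 1) / y, t - x] Q := by
      intro t
      rw [hP, eval_pv]
      congr 1
      ext i j
      fin_cases i <;> fin_cases j <;> simp
      ring
    rw [← hPe]
    suffices hP0 : P = 0 by rw [hP0]; simp
    apply poly_zero_of_acc P 2
    intro η hη
    obtain ⟨u, v, hl, hne, hs⟩ := hpig (min ε' (η / 2)) (lt_min hε'pos (by linarith))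
    refine ⟨(qt M u v).trace, htr u v hl hne, ?_, ?_⟩
    · have h1 := hs 0 0
      have h2 := hs 1 1
      have h3 := min_le_right ε' (η / 2)
      rw [Matrix.sub_apply] at h1 h2
      have e : (qt M u v).trace - 2 = (qt M u v 0 0 - (1 : Matrix (Fin 2) (Fin 2) ℝ) 0 0)
          + (qt M u v 1 1 - (1 : Matrix (Fin 2) (Fin 2) ℝ) 1 1) := by
        rw [Matrix.trace_fin_two]; simp; ring
      rw [e]
      refine lt_of_le_of_lt (abs_add_le _ _) ?_
      linarith
    · rw [hPe]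
      exact hB u v hl hne (hs.mono (min_le_left _ _)) x y hy
  exact hQ (claimD hCc X hX)

end Pool.Agent.Q40.MI
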